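import Mathlib

/-!
# Artin groups: definitions and alternating words
-/

set_option autoImplicit false

namespace Pool.Agent.U166.AR

section alt

variable {G : Type} [Monoid G]

/-- the alternating product `a * b * a * ...` with `n` factors -/
def alt : ℕ → G → G → G
  | 0, _, _ => 1
  | n + 1, a, b => a * alt n b a

theorem alt_zero (a b : G) : alt 0 a b = 1 := rfl

theorem alt_succ (n : ℕ) (a b : G) : alt (n + 1) a b = a * alt n b a := rfl

theorem alt_two (n : ℕ) (a b : G) : alt (n + 2) a b = a * b * alt n a b := by
  rw [alt_succ, alt_succ, mul_assoc]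

theorem alt_even (k : ℕ) (a b : G) : alt (2 * k) a b = (a * b) ^ k := by
  induction k with
  | zero => rw [mul_zero, alt_zero, pow_zero]
  | succ k ih => rw [mul_add, mul_one, alt_two, ih, pow_succ']

theorem alt_odd (k : ℕ) (a b : G) : alt (2 * k + 1) a b = (a * b) ^ k * a := by
  induction k with
  | zero => rw [mul_zero, zero_add, alt_succ, alt_zero, mul_one, pow_zero, one_mul]
  | succ k ih =>
    rw [show 2 * (k + 1) + 1 = 2 * k + 1 + 2 by ring, alt_two, ih, pow_succ', mul_assoc, mul_assoc,
      mul_assoc]

theorem alt_odd' (k : ℕ) (a b : G) : alt (2 * k + 1) a b = a * (b * a) ^ k := by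
  rw [alt_succ, alt_even]

theorem map_alt {H : Type} [Monoid H] (f : G →* H) (n : ℕ) (a b : G) :
    f (alt n a b) = alt n (f a) (f b) := by
  induction n generalizing a b with
  | zero => exact map_one f
  | succ n ih => rw [alt_succ, alt_succ, map_mul, ih]

theorem alt_one_right (n : ℕ) (a : G) (b : G) (h : a * b = b * a) : alt 2 a b = alt 2 b a := by
  rw [alt_two, alt_two, alt_zero, alt_zero, mul_one, mul_one, h]

end alt

section artin

variable {B D E : Type}

/-- the relators of the Artin group with Coxeter matrix `M` (`M s t = 0` means that there is no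
relation) -/
def rels (M : CoxeterMatrix B) : Set (FreeGroup B) :=
  {r | ∃ s t : B, r = alt (M s t) (FreeGroup.of s) (FreeGroup.of t) *
    (alt (M s t) (FreeGroup.of t) (FreeGroup.of s))⁻¹}

/-- the Artin group with Coxeter matrix `M` -/
abbrev Artin (M : CoxeterMatrix B) : Type := PresentedGroup (rels M)

/-- the generators -/
def gn (M : CoxeterMatrix B) (s : B) : Artin M := PresentedGroup.of s

theorem gn_rel (M : CoxeterMatrix B) (s t : B) :
    alt (M s t) (gn M s) (gn M t) = alt (M s t) (gn M t) (gn M s) := by
  have h : (PresentedGroup.mk (rels M)) (alt (M s t) (FreeGroup.of s) (FreeGroup.of t) *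
      (alt (M s t) (FreeGroup.of t) (FreeGroup.of s))⁻¹) = 1 :=
    PresentedGroup.one_of_mem ⟨s, t, rfl⟩
  rw [map_mul, map_inv, map_alt, map_alt, mul_inv_eq_one] at h
  exact h

/-- the universal property -/
def lft (M : CoxeterMatrix B) {H : Type} [Group H] (f : B → H)
    (hf : ∀ s t, alt (M s t) (f s) (f t) = alt (M s t) (f t) (f s)) : Artin M →* H :=
  PresentedGroup.toGroup (f := f) (by
    rintro _ ⟨s, t, rfl⟩
    rw [map_mul, map_inv, map_alt, map_alt, FreeGroup.lift_apply_of, FreeGroup.lift_apply_of, hf,
      mul_inv_cancel])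

theorem lft_gn (M : CoxeterMatrix B) {H : Type} [Group H] (f : B → H)
    (hf : ∀ s t, alt (M s t) (f s) (f t) = alt (M s t) (f t) (f s)) (s : B) :
    lft M f hf (gn M s) = f s := PresentedGroup.toGroup.of _

theorem closure_gn (M : CoxeterMatrix B) : Subgroup.closure (Set.range (gn M)) = ⊤ :=
  PresentedGroup.closure_range_of _

theorem hom_ext {M : CoxeterMatrix B} {H : Type} [Group H] {f g : Artin M →* H}
    (h : ∀ s, f (gn M s) = g (gn M s)) : f = g := PresentedGroup.ext h

/-- induction on elements -/
theorem ind {M : CoxeterMatrix B} {p : Artin M → Prop} (h1 : p 1) (hg : ∀ s, p (gn M s))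
    (hm : ∀ a b, p a → p b → p (a * b)) (hi : ∀ a, p a → p a⁻¹) (x : Artin M) : p x := by
  have hx : x ∈ Subgroup.closure (Set.range (gn M)) := by
    rw [closure_gn]
    trivial
  induction hx using Subgroup.closure_induction with
  | mem y hy =>
    obtain ⟨s, rfl⟩ := hy
    exact hg s
  | one => exact h1
  | mul a b _ _ ha hb => exact hm a b ha hb
  | inv a _ ha => exact hi a ha

/-- the homomorphism induced by a map of the index sets -/
def mp {N : CoxeterMatrix D} {M : CoxeterMatrix B} (φ : D → B)
    (h : ∀ s t, N s t = M (φ s) (φ t)) : Artin N →* Artin M :=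
  lft N (fun s => gn M (φ s)) (fun s t => by rw [h]; exact gn_rel M _ _)

theorem mp_gn {N : CoxeterMatrix D} {M : CoxeterMatrix B} (φ : D → B)
    (h : ∀ s t, N s t = M (φ s) (φ t)) (s : D) : mp φ h (gn N s) = gn M (φ s) := lft_gn _ _ _ _

/-- the restriction of a Coxeter matrix to a subset -/
def res (M : CoxeterMatrix B) (S : Set B) : CoxeterMatrix S where
  M := fun s t => M s t
  isSymm := by
    ext s t
    exact M.symmetric t s
  diagonal := fun s => M.diagonal s
  off_diagonal := fun s t h => M.off_diagonal s t fun h' => h (Subtype.ext h')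

theorem res_apply (M : CoxeterMatrix B) (S : Set B) (s t : S) : res M S s t = M s t := rfl

end artin

end Pool.Agent.U166.AR
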