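import Mathlib

/-!
# Ping-pong modulo a central cyclic subgroup
-/

set_option autoImplicit false

namespace Pool.Agent.U166.AR

open scoped Pointwise

theorem three_le {Q : Type} [Group Q] (x : Q) (h1 : x ≠ 1) (h2 : x ^ 2 ≠ 1) :
    3 ≤ Cardinal.mk (Subgroup.zpowers x) := by
  have h : Function.Injective (fun i : Fin 3 => (⟨x ^ (i : ℕ), Subgroup.npow_mem_zpowers x i⟩ :
      Subgroup.zpowers x)) := by
    intro i j hij
    have hij' : x ^ (i : ℕ) = x ^ (j : ℕ) := congrArg Subtype.val hij
    have h1' : x * x ≠ 1 := by rwa [← pow_two]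
    have h3 : x ≠ x * x := fun h => h1 (by simpa using h)
    fin_cases i <;> fin_cases j <;>
      simp only [Fin.zero_eta, Fin.mk_one, Fin.reduceFinMk, Fin.val_zero, Fin.val_one, Fin.val_two,
        pow_zero, pow_one, pow_two] at hij' ⊢
    · exact absurd hij'.symm h1
    · exact absurd hij'.symm h1'
    · exact absurd hij' h1
    · exact absurd hij' h3
    · exact absurd hij' h1'
    · exact absurd hij'.symm h3
  have := Cardinal.mk_le_of_injective h
  rwa [Cardinal.mk_fin] at this

theorem pp {H α : Type} [Group H] (g : H →* Equiv.Perm α) (z p q : H)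
    (hz : ∀ h, h * z = z * h) (hgz : g z = 1)
    (hgen : Subgroup.closure {p, q, z} = ⊤)
    (X1 X2 : Set α) (h1 : X1.Nonempty) (h2 : X2.Nonempty) (hd : Disjoint X1 X2)
    (hp : ∀ k : ℤ, p ^ k ∈ Subgroup.zpowers z ∨ ∀ x ∈ X2, g (p ^ k) x ∈ X1)
    (hq : ∀ k : ℤ, q ^ k ∈ Subgroup.zpowers z ∨ ∀ x ∈ X1, g (q ^ k) x ∈ X2)
    (h3 : (p ∉ Subgroup.zpowers z ∧ p ^ 2 ∉ Subgroup.zpowers z) ∨
      (q ∉ Subgroup.zpowers z ∧ q ^ 2 ∉ Subgroup.zpowers z))
    (h : H) (hh : g h = 1) : h ∈ Subgroup.zpowers z := by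
  have hcent : ∀ (k : ℤ) (h : H), h * z ^ k = z ^ k * h := by
    intro k h
    exact (show Commute h z from hz h).zpow_right k
  have hN : (Subgroup.zpowers z).Normal := by
    refine ⟨?_⟩
    rintro _ ⟨k, rfl⟩ h
    refine ⟨k, ?_⟩
    show z ^ k = h * z ^ k * h⁻¹
    rw [hcent, mul_inv_cancel_right]
  set Z := Subgroup.zpowers z with hZ
  have hker : ∀ x ∈ Z, g x = 1 := by
    rintro _ ⟨k, rfl⟩
    show g (z ^ k) = 1
    rw [map_zpow, hgz, one_zpow]
  let gb : H ⧸ Z →* Equiv.Perm α := QuotientGroup.lift Z g hker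
  have hgb : ∀ x : H, gb (x : H ⧸ Z) = g x := fun x => rfl
  let F : Bool → Subgroup (H ⧸ Z) := fun b => cond b (Subgroup.zpowers (p : H ⧸ Z))
    (Subgroup.zpowers (q : H ⧸ Z))
  let f : ∀ b, F b →* Equiv.Perm α := fun b => gb.comp (F b).subtype
  have hinj : Function.Injective (Monoid.CoprodI.lift f) := by
    refine Monoid.CoprodI.lift_injective_of_ping_pong f (Or.inr ?_) (fun b => cond b X1 X2) ?_ ?_ ?_
    · rcases h3 with ⟨h4, h5⟩ | ⟨h4, h5⟩
      · refine ⟨true, three_le (p : H ⧸ Z) ?_ ?_⟩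
        · rwa [Ne, QuotientGroup.eq_one_iff]
        · rwa [← QuotientGroup.mk_pow, Ne, QuotientGroup.eq_one_iff]
      · refine ⟨false, three_le (q : H ⧸ Z) ?_ ?_⟩
        · rwa [Ne, QuotientGroup.eq_one_iff]
        · rwa [← QuotientGroup.mk_pow, Ne, QuotientGroup.eq_one_iff]
    · rintro (_ | _)
      · exact h2
      · exact h1
    · rintro (_ | _) (_ | _) hij
      · exact absurd rfl hij
      · exact hd.symm
      · exact hd
      · exact absurd rfl hij
    · rintro (_ | _) (_ | _) hij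
      · exact absurd rfl hij
      · rintro ⟨_, k, rfl⟩ hne
        rcases hq k with h4 | h4
        · exfalso
          apply hne
          apply Subtype.ext
          show (q : H ⧸ Z) ^ k = 1
          rw [← QuotientGroup.mk_zpow, QuotientGroup.eq_one_iff]
          exact h4
        · rintro _ ⟨x, hx, rfl⟩
          exact h4 x hx
      · rintro ⟨_, k, rfl⟩ hne
        rcases hp k with h4 | h4
        · exfalso
          apply hne
          apply Subtype.ext
          show (p : H ⧸ Z) ^ k = 1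
          rw [← QuotientGroup.mk_zpow, QuotientGroup.eq_one_iff]
          exact h4
        · rintro _ ⟨x, hx, rfl⟩
          exact h4 x hx
      · exact absurd rfl hij
  let Ψ : Monoid.CoprodI (fun b => F b) →* H ⧸ Z := Monoid.CoprodI.lift fun b => (F b).subtype
  have hcomp : gb.comp Ψ = Monoid.CoprodI.lift f := by
    apply Monoid.CoprodI.ext_hom
    intro b
    ext x : 1
    show gb (Ψ (Monoid.CoprodI.of x)) = Monoid.CoprodI.lift f (Monoid.CoprodI.of x)
    rw [Monoid.CoprodI.lift_of]
    show gb ((Monoid.CoprodI.lift fun b => (F b).subtype) (Monoid.CoprodI.of x)) = _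
    rw [Monoid.CoprodI.lift_of]
    rfl
  have hrange : ∀ x : H, (x : H ⧸ Z) ∈ Ψ.range := by
    intro x
    have hx : x ∈ Subgroup.closure {p, q, z} := by
      rw [hgen]
      trivial
    induction hx using Subgroup.closure_induction with
    | mem y hy =>
      rcases hy with rfl | rfl | rfl
      · refine ⟨Monoid.CoprodI.of (i := true) ⟨(y : H ⧸ Z), Subgroup.mem_zpowers _⟩, ?_⟩
        show (Monoid.CoprodI.lift fun b => (F b).subtype) (Monoid.CoprodI.of _) = _
        rw [Monoid.CoprodI.lift_of]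
        rfl
      · refine ⟨Monoid.CoprodI.of (i := false) ⟨(y : H ⧸ Z), Subgroup.mem_zpowers _⟩, ?_⟩
        show (Monoid.CoprodI.lift fun b => (F b).subtype) (Monoid.CoprodI.of _) = _
        rw [Monoid.CoprodI.lift_of]
        rfl
      · rw [(QuotientGroup.eq_one_iff y).2 (Subgroup.mem_zpowers y)]
        exact one_mem _
    | one => exact one_mem _
    | mul a b _ _ ha hb =>
      rw [QuotientGroup.mk_mul]
      exact mul_mem ha hb
    | inv a _ ha =>
      rw [QuotientGroup.mk_inv]
      exact inv_mem ha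
  obtain ⟨w, hw⟩ := hrange h
  have h4 : Monoid.CoprodI.lift f w = 1 := by
    rw [← hcomp]
    show gb (Ψ w) = 1
    rw [hw, hgb, hh]
  have h5 : w = 1 := hinj (h4.trans (map_one _).symm)
  rw [h5, map_one] at hw
  exact (QuotientGroup.eq_one_iff h).1 hw.symm

end Pool.Agent.U166.AR
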