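import Pool.Agent.U166.AR.Pl
import Pool.Agent.U166.AR.PP

/-!
# Dihedral Artin groups act faithfully on the plane
-/

set_option autoImplicit false

namespace Pool.Agent.U166.AR

open scoped LinearAlgebra.Projectivization

/-- the projective line -/
abbrev PL : Type := ℙ ℝ (ℝ × ℝ)

/-- the action on the projective line -/
noncomputable def pr : P2 →* Equiv.Perm PL := MulAction.toPermHom P2 PL

theorem pr_mk (w : P2) (v : ℝ × ℝ) (hv : v ≠ 0) :
    pr w (Projectivization.mk ℝ v hv) =
      Projectivization.mk ℝ (w v) (fun h => hv (w.injective (h.trans (map_zero w).symm))) := rfl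

/-- the set of points given by a condition on the vectors -/
def Pt (q : ℝ × ℝ → Prop) : Set PL := {x | ∃ (v : ℝ × ℝ) (hv : v ≠ 0), x = Projectivization.mk ℝ v hv ∧ q v}

theorem Pt_map {w : P2} {q q' : ℝ × ℝ → Prop} (h : ∀ v, q v → q' (w v)) :
    ∀ x ∈ Pt q, pr w x ∈ Pt q' := by
  rintro _ ⟨v, hv, rfl, hq⟩
  exact ⟨w v, _, pr_mk w v hv, h v hq⟩

theorem Pt_mono {q q' : ℝ × ℝ → Prop} (h : ∀ v, q v → q' v) : Pt q ⊆ Pt q' := by
  rintro _ ⟨v, hv, rfl, hq⟩
  exact ⟨v, hv, rfl, h v hq⟩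

theorem Pt_disj {q q' : ℝ × ℝ → Prop} (hs : ∀ (c : ℝ) (v : ℝ × ℝ), c ≠ 0 → q (c • v) → q v)
    (h : ∀ v, q v → q' v → False) : Disjoint (Pt q) (Pt q') := by
  rw [Set.disjoint_left]
  rintro _ ⟨v, hv, rfl, hq⟩ ⟨v', hv', he, hq'⟩
  rw [Projectivization.mk_eq_mk_iff] at he
  obtain ⟨a, ha⟩ := he
  refine h v' ?_ hq'
  refine hs a v' a.ne_zero ?_
  have : (a : ℝ) • v' = v := ha
  rwa [this]

theorem Pt_ne {q : ℝ × ℝ → Prop} (v : ℝ × ℝ) (hv : v ≠ 0) (h : q v) : (Pt q).Nonempty :=
  ⟨_, v, hv, rfl, h⟩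

theorem pr_hA (c : ℝˣ) : pr (hA c) = 1 := by
  apply Equiv.ext
  intro x
  refine Projectivization.ind (fun v hv => ?_) x
  rw [pr_mk]
  show _ = Projectivization.mk ℝ v hv
  rw [Projectivization.mk_eq_mk_iff]
  exact ⟨c, rfl⟩

theorem inf_pow {α : Type} (φ : Equiv.Perm α) (X A B : Set α) (hA : ∀ x ∈ X, φ x ∈ A)
    (hAA : ∀ x ∈ A, φ x ∈ A) (hB : ∀ x ∈ X, φ⁻¹ x ∈ B) (hBB : ∀ x ∈ B, φ⁻¹ x ∈ B) (k : ℤ) :
    k = 0 ∨ ∀ x ∈ X, (φ ^ k) x ∈ A ∪ B := by
  have h1 : ∀ n : ℕ, ∀ x ∈ X, (φ ^ (n + 1)) x ∈ A := by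
    intro n
    induction n with
    | zero =>
      intro x hx
      rw [zero_add, pow_one]
      exact hA x hx
    | succ n ih =>
      intro x hx
      rw [pow_succ']
      exact hAA _ (ih x hx)
  have h2 : ∀ n : ℕ, ∀ x ∈ X, (φ⁻¹ ^ (n + 1)) x ∈ B := by
    intro n
    induction n with
    | zero =>
      intro x hx
      rw [zero_add, pow_one]
      exact hB x hx
    | succ n ih =>
      intro x hx
      rw [pow_succ']
      exact hBB _ (ih x hx)
  rcases lt_trichotomy k 0 with hk | hk | hk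
  · right
    intro x hx
    right
    obtain ⟨n, hn⟩ : ∃ n : ℕ, k = -((n + 1 : ℕ) : ℤ) := ⟨(-k - 1).toNat, by omega⟩
    rw [hn, zpow_neg, zpow_natCast, ← inv_pow]
    exact h2 n x hx
  · exact Or.inl hk
  · right
    intro x hx
    left
    obtain ⟨n, hn⟩ : ∃ n : ℕ, k = ((n + 1 : ℕ) : ℤ) := ⟨(k - 1).toNat, by omega⟩
    rw [hn, zpow_natCast]
    exact h1 n x hx

/-- the form -/
theorem f_pos {m : ℕ} {i : ℤ} (h0 : 0 < i) (h1 : i < m) {x y : ℝ} (h : x * y < 0) :
    0 < (sn m (i + 1) * x - sn m i * y) * (sn m i * x - sn m (i - 1) * y) := by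
  have hm : m ≠ 0 := by rintro rfl; simp at h1; omega
  have a : 0 ≤ sn m (i + 1) := sn_nonneg (by omega) (by omega) hm
  have b : 0 < sn m i := sn_pos h0 h1
  have c : 0 ≤ sn m (i - 1) := sn_nonneg (by omega) (by omega) hm
  have e : (sn m (i + 1) * x - sn m i * y) * (sn m i * x - sn m (i - 1) * y) =
      sn m (i + 1) * sn m i * x ^ 2 + (sn m (i + 1) * sn m (i - 1)) * (-(x * y)) +
      sn m i * sn m (i - 1) * y ^ 2 + (sn m i) ^ 2 * (-(x * y)) := by ring
  rw [e]
  have hxy : 0 < -(x * y) := by linarith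
  have p1 : 0 ≤ sn m (i + 1) * sn m i * x ^ 2 := by positivity
  have p2 : 0 ≤ (sn m (i + 1) * sn m (i - 1)) * (-(x * y)) := by positivity
  have p3 : 0 ≤ sn m i * sn m (i - 1) * y ^ 2 := by positivity
  have p4 : 0 < (sn m i) ^ 2 * (-(x * y)) := by positivity
  linarith

/-- powers of the rotation map the negative cone to the positive cone -/
theorem u_pos {m : ℕ} (hm : 2 ≤ m) {i : ℕ} (h0 : 0 < i) (h1 : i < m) {v : ℝ × ℝ}
    (h : v.1 * v.2 < 0) : 0 < ((uA (lam m) ^ i) v).1 * ((uA (lam m) ^ i) v).2 := by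
  have hp := uA_pow (m := m) (by omega) i v
  have hs := sn_one_pos hm
  have e1 : sn m 1 * ((uA (lam m) ^ i) v).1 = sn m (i + 1) * v.1 - sn m i * v.2 :=
    congrArg Prod.fst hp
  have e2 : sn m 1 * ((uA (lam m) ^ i) v).2 = sn m i * v.1 - sn m (i - 1) * v.2 :=
    congrArg Prod.snd hp
  have h2 := f_pos (m := m) (i := i) (by omega) (by omega) h
  rw [← e1, ← e2] at h2
  have h3 : sn m 1 * ((uA (lam m) ^ i) v).1 * (sn m 1 * ((uA (lam m) ^ i) v).2) =
      (sn m 1) ^ 2 * (((uA (lam m) ^ i) v).1 * ((uA (lam m) ^ i) v).2) := by ring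
  rw [h3] at h2
  exact (pos_iff_pos_of_mul_pos h2).1 (by positivity)

/-- more precisely -/
theorem u_pos2 {m : ℕ} (hm : 2 ≤ m) {i : ℕ} (h0 : 1 < i) (h1 : i < m) {v : ℝ × ℝ}
    (h : v.1 * v.2 < 0) : ((uA (lam m) ^ i) v).1 * ((uA (lam m) ^ i) v).2 <
      lam m * ((uA (lam m) ^ i) v).2 ^ 2 := by
  obtain ⟨j, rfl⟩ : ∃ j, i = j + 1 := ⟨i - 1, by omega⟩
  have h2 := u_pos hm (i := j) (by omega) (by omega) h
  have e : (uA (lam m) ^ (j + 1)) v = uA (lam m) ((uA (lam m) ^ j) v) := by
    rw [pow_succ']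
    rfl
  rw [e]
  generalize (uA (lam m) ^ j) v = w at h2
  show (lam m * w.1 - w.2) * w.1 < lam m * w.1 ^ 2
  nlinarith

theorem lam_nonneg {m : ℕ} (h : m ≠ 1) : 0 ≤ lam m := by
  rcases Nat.eq_zero_or_pos m with rfl | hm
  · rw [lam_zero]
    norm_num
  · rw [lam_pos (by omega)]
    have h2 : (2 : ℝ) ≤ m := by exact_mod_cast (by omega : 2 ≤ m)
    have h3 : 0 ≤ Real.cos (Real.pi / m) := by
      apply Real.cos_nonneg_of_mem_Icc
      constructor
      · have : 0 < Real.pi / m := by positivity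
        linarith [Real.pi_pos]
      · apply div_le_div_of_nonneg_left Real.pi_pos.le (by norm_num) h2
    linarith

section main

variable {H : Type} [Group H] (R : H →* P2) (s t : H) (m : ℕ)

theorem pow_st (hs : R s = sA (lam m)) (ht : R t = tA (lam m)) (k : ℕ) :
    R ((s * t) ^ k) = hA (m2 ^ k) * (uA (lam m)) ^ (2 * k) := by
  rw [map_pow, map_mul, hs, ht, st_eq, (show Commute (hA m2) ((uA (lam m)) ^ 2) from
    (hA_comm m2 _).symm).mul_pow, ← pow_mul, hA_pow]

theorem z_fin {R : H →* P2} {z : H} {c : ℝˣ} {n : ℕ} (hc : R z = hA c) (hn : n ≠ 0)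
    (hcn : |(c : ℝ)| = 2 ^ n) {h : H} (hz : h ∈ Subgroup.zpowers z) (hh : R h = 1) : h = 1 := by
  obtain ⟨j, hj⟩ := hz
  have hj' : z ^ j = h := hj
  rw [← hj', map_zpow, hc, ← hA_zpow] at hh
  have h4 : (c ^ j : ℝˣ) = 1 := by
    have h5 := LinearEquiv.congr_fun hh ((1 : ℝ), (0 : ℝ))
    have h6 := congrArg Prod.fst h5
    have h7 : ((c ^ j : ℝˣ) : ℝ) * 1 = 1 := h6
    rw [mul_one] at h7
    exact Units.ext h7
  have h8 : j = 0 := by
    by_contra hj0
    have h9 : |((c ^ j : ℝˣ) : ℝ)| = 1 := by rw [h4]; simp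
    rw [Units.val_zpow_eq_zpow_val, abs_zpow, hcn, ← zpow_natCast, ← zpow_mul] at h9
    have h11 : (n : ℤ) * j = 0 := by
      by_contra h12
      have := (zpow_right_injective₀ (show (0:ℝ) < 2 by norm_num) (by norm_num)).ne h12
      apply this
      show (2 : ℝ) ^ ((n : ℤ) * j) = 2 ^ (0 : ℤ)
      rw [h9, zpow_zero]
    rcases mul_eq_zero.1 h11 with h12 | h12
    · omega
    · exact hj0 h12
  rw [← hj', h8, zpow_zero]

theorem abs_m2 : |((m2 : ℝˣ) : ℝ)| = 2 := by
  show |(-2 : ℝ)| = 2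
  norm_num

/-- odd labels -/
theorem odd_case (k : ℕ) (hk : 1 ≤ k) (hm : m = 2 * k + 1)
    (hrel : alt m s t = alt m t s) (hgen : Subgroup.closure {s, t} = ⊤)
    (hs : R s = sA (lam m)) (ht : R t = tA (lam m)) (h : H) (hh : R h = 1) : h = 1 := by
  set x := s * t with hx
  set D := alt m s t with hD
  have hm3 : 3 ≤ m := by omega
  have hD1 : D = x ^ k * s := by rw [hD, hm, alt_odd]
  have hD2 : D = t * (s * t) ^ k := by rw [hrel, hm, alt_odd']
  have hsD : s * D = D * t := by
    rw [hD1, ← mul_assoc, mul_assoc (x ^ k), ← hx]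
    have : s * x ^ k * s = s * (x ^ k * s) := mul_assoc _ _ _
    rw [this, ← hD1, hD2, ← mul_assoc, ← hx, ← pow_succ', ← pow_succ]
  have htD : t * D = D * s := by
    have h1 : D = (t * s) ^ k * t := by rw [hrel, hm, alt_odd]
    have h2 : D = s * (t * s) ^ k := by rw [hD, hm, alt_odd']
    conv_lhs => rw [h2]
    rw [← mul_assoc, ← pow_succ', pow_succ, ← mul_assoc, ← h1]
  have hz1 : x ^ m = D * D := by
    have e : x ^ m = x ^ k * s * (t * x ^ k) := by
      have : x ^ k * s * (t * x ^ k) = x ^ k * x * x ^ k := by rw [hx]; group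
      rw [this, ← pow_succ, ← pow_add]
      congr 1
      omega
    rw [e, ← hD1, hx, ← hD2]
  obtain ⟨z, hz⟩ : ∃ z, z = x ^ m := ⟨_, rfl⟩
  have hzD : z = D * D := hz.trans hz1
  have hzs : s * z = z * s := by
    rw [hzD, ← mul_assoc, hsD, mul_assoc, htD, ← mul_assoc]
  have hzt : t * z = z * t := by
    rw [hzD, ← mul_assoc, htD, mul_assoc, hsD, ← mul_assoc]
  have hzc : ∀ h, h * z = z * h := by
    intro h
    have hh : h ∈ Subgroup.closure {s, t} := by rw [hgen]; trivial
    induction hh using Subgroup.closure_induction with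
    | mem y hy =>
      rcases hy with rfl | rfl
      · exact hzs
      · exact hzt
    | one => rw [one_mul, mul_one]
    | mul a b _ _ ha hb => rw [mul_assoc, hb, ← mul_assoc, ha, mul_assoc]
    | inv a _ ha => exact (Commute.inv_left (show Commute a z from ha)).eq
  have hRz : R z = hA (m2 ^ m) := by
    rw [hz, hx, pow_st R s t m hs ht, mul_comm 2 m, pow_mul, uA_m (by omega), ← hA_pow, ← hA_mul]
    congr 1
    simp [m1]
  have hgz : pr (R z) = 1 := by rw [hRz, pr_hA]
  have hpx : ∀ i : ℕ, 0 < i → i < m → ∀ y ∈ Pt (fun v => v.1 * v.2 < 0),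
      pr (R (x ^ i)) y ∈ Pt (fun v => 0 < v.1 * v.2) := by
    intro i hi0 hi1
    rw [hx, pow_st R s t m hs ht, map_mul, pr_hA, one_mul]
    rcases Nat.lt_or_ge (2 * i) m with h2 | h2
    · exact Pt_map fun v hv => u_pos (by omega) (by omega) h2 hv
    · obtain ⟨j, hj⟩ : ∃ j, 2 * i = m + j := ⟨2 * i - m, by omega⟩
      rw [hj, pow_add, uA_m (by omega), map_mul, pr_hA, one_mul]
      exact Pt_map fun v hv => u_pos (by omega) (by omega) (by omega) hv
  have hdis : Disjoint (Pt (fun v => v.1 * v.2 < 0)) (Pt (fun v => 0 < v.1 * v.2)) := by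
    refine Pt_disj ?_ ?_
    · intro c v hc hv
      have : (c * v.1) * (c * v.2) < 0 := hv
      have e : (c * v.1) * (c * v.2) = c ^ 2 * (v.1 * v.2) := by ring
      rw [e] at this
      have hc2 : 0 < c ^ 2 := by positivity
      by_contra hcon
      push Not at hcon
      have := mul_nonneg hc2.le hcon
      linarith
    · intro v h1 h2
      linarith
  have hne1 : (Pt (fun v => v.1 * v.2 < 0)).Nonempty := by
    refine Pt_ne (1, -1) ?_ ?_
    · intro h0
      have := congrArg Prod.fst h0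
      simp at this
    · norm_num
  have hne2 : (Pt (fun v => 0 < v.1 * v.2)).Nonempty := by
    refine Pt_ne (1, 1) ?_ ?_
    · intro h0
      have := congrArg Prod.fst h0
      simp at this
    · norm_num
  have hDact : ∀ y ∈ Pt (fun v => 0 < v.1 * v.2), pr (R D) y ∈ Pt (fun v => v.1 * v.2 < 0) := by
    have e1 : R D = hA (m2 ^ k * m1) * ((uA (lam m))⁻¹ * sA (lam m)) := by
      rw [hD1, map_mul, hs, hx, pow_st R s t m hs ht, hA_mul, mul_assoc, mul_assoc]
      congr 1
      rw [← mul_assoc]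
      congr 1
      rw [← uA_m (show 2 ≤ m by omega)]
      conv_rhs => rw [hm]
      rw [pow_succ, mul_assoc, mul_inv_cancel, mul_one, ← hm]
    rw [e1, map_mul, pr_hA, one_mul]
    refine Pt_map fun v hv => ?_
    have e2 : ((uA (lam m))⁻¹ * sA (lam m)) v = (v.2, lam m * v.2 - (2 * v.1 + lam m * v.2)) := rfl
    rw [e2]
    show v.2 * (lam m * v.2 - (2 * v.1 + lam m * v.2)) < 0
    nlinarith
  have hnotx : ∀ i : ℕ, 0 < i → i < m → x ^ i ∉ Subgroup.zpowers z := by
    rintro i h0 h1 ⟨j, hj⟩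
    have hj' : z ^ j = x ^ i := hj
    have h2 : pr (R (x ^ i)) = 1 := by
      rw [← hj', map_zpow, map_zpow, hgz, one_zpow]
    obtain ⟨y, hy⟩ := hne1
    have h3 := hpx i h0 h1 y hy
    rw [h2] at h3
    exact Set.disjoint_left.1 hdis hy h3
  have hmain := pp (pr.comp R) z D x hzc hgz ?_ (Pt (fun v => v.1 * v.2 < 0))
    (Pt (fun v => 0 < v.1 * v.2)) hne1 hne2 hdis ?_ ?_ (Or.inr ⟨?_, hnotx 2 (by omega) (by omega)⟩) h
    (by show pr (R h) = 1; rw [hh, map_one])
  · refine z_fin hRz (by omega : m ≠ 0) ?_ hmain hh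
    rw [Units.val_pow_eq_pow_val, abs_pow, abs_m2]
  · rw [eq_top_iff, ← hgen, Subgroup.closure_le]
    have h1 : D ∈ Subgroup.closure {D, x, z} := Subgroup.subset_closure (by simp)
    have h2 : x ∈ Subgroup.closure {D, x, z} := Subgroup.subset_closure (by simp)
    have h3 : s ∈ Subgroup.closure {D, x, z} := by
      have : s = (x ^ k)⁻¹ * D := by rw [hD1]; group
      rw [this]
      exact mul_mem (inv_mem (pow_mem h2 k)) h1
    rintro y (rfl | rfl)
    · exact h3
    · have : y = s⁻¹ * x := by rw [hx]; group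
      show y ∈ Subgroup.closure {D, x, z}
      rw [this]
      exact mul_mem (inv_mem h3) h2
  · intro j
    obtain ⟨i, hi | hi⟩ := Int.even_or_odd' j
    · left
      refine ⟨i, ?_⟩
      show z ^ i = D ^ j
      rw [hzD, hi, zpow_mul, zpow_two]
    · right
      intro y hy
      have e : D ^ j = z ^ i * D := by
        rw [hi, zpow_add_one, zpow_mul, zpow_two, hzD]
      show pr (R (D ^ j)) y ∈ _
      rw [e, map_mul, map_mul, map_zpow, map_zpow, hgz, one_zpow, one_mul]
      exact hDact y hy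
  · intro j
    have hjm : j = m * (j / m) + j % m := (Int.mul_ediv_add_emod j m).symm
    have hm0 : (0 : ℤ) < m := by omega
    have hr0 : 0 ≤ j % m := Int.emod_nonneg j hm0.ne'
    have hr1 : j % m < m := Int.emod_lt_of_pos j hm0
    obtain ⟨i, hi⟩ : ∃ i : ℕ, j % m = i := ⟨(j % m).toNat, by omega⟩
    have e : x ^ j = z ^ (j / m) * x ^ i := by
      conv_lhs => rw [hjm, hi, zpow_add, zpow_mul, zpow_natCast, zpow_natCast]
      rw [hz]
    rcases Nat.eq_zero_or_pos i with rfl | hi0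
    · left
      rw [e, pow_zero, mul_one]
      exact ⟨_, rfl⟩
    · right
      intro y hy
      show pr (R (x ^ j)) y ∈ _
      rw [e, map_mul, map_mul, map_zpow, map_zpow, hgz, one_zpow, one_mul]
      exact hpx i hi0 (by omega) y hy
  · have := hnotx 1 one_pos (by omega)
    rwa [pow_one] at this

/-- even labels -/
theorem even_case (k : ℕ) (hk : 2 ≤ k) (hm : m = 2 * k)
    (hrel : alt m s t = alt m t s) (hgen : Subgroup.closure {s, t} = ⊤)
    (hs : R s = sA (lam m)) (ht : R t = tA (lam m)) (h : H) (hh : R h = 1) : h = 1 := by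
  set x := s * t with hx
  obtain ⟨z, hz⟩ : ∃ z, z = x ^ k := ⟨_, rfl⟩
  have h1 : alt m s t = z := by rw [hm, alt_even, hz]
  have h2 : z = (t * s) ^ k := by rw [← h1, hrel, hm, alt_even]
  have hzs : s * z = z * s := by
    conv_lhs => rw [h2]
    rw [hz, hx]
    exact (alt_odd' k s t).symm.trans (alt_odd k s t)
  have hzt : t * z = z * t := by
    conv_rhs => rw [h2]
    rw [hz, hx]
    exact (alt_odd' k t s).symm.trans (alt_odd k t s)
  have hzc : ∀ h, h * z = z * h := by
    intro h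
    have hh : h ∈ Subgroup.closure {s, t} := by rw [hgen]; trivial
    induction hh using Subgroup.closure_induction with
    | mem y hy =>
      rcases hy with rfl | rfl
      · exact hzs
      · exact hzt
    | one => rw [one_mul, mul_one]
    | mul a b _ _ ha hb => rw [mul_assoc, hb, ← mul_assoc, ha, mul_assoc]
    | inv a _ ha => exact (Commute.inv_left (show Commute a z from ha)).eq
  have hRz : R z = hA (m2 ^ k * m1) := by
    rw [hz, hx, pow_st R s t m hs ht, ← hm, uA_m (by omega), hA_mul]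
  have hgz : pr (R z) = 1 := by rw [hRz, pr_hA]
  set q1 : ℝ × ℝ → Prop := fun v => v.1 * v.2 < 0 ∨ lam m * v.2 ^ 2 < v.1 * v.2 with hq1
  set q2 : ℝ × ℝ → Prop := fun v => 0 < v.1 * v.2 ∧ v.1 * v.2 < lam m * v.2 ^ 2 with hq2
  have hl : 0 ≤ lam m := lam_nonneg (by omega)
  have hu : ∀ j : ℕ, 1 < j → j + 1 < m → ∀ v, q1 v → q2 ((uA (lam m) ^ j) v) := by
    rintro j h0 h1 v (hv | hv)
    · exact ⟨u_pos (by omega) (by omega) (by omega) hv, u_pos2 (by omega) (by omega) (by omega) hv⟩
    · obtain ⟨w, hw⟩ : ∃ w : ℝ × ℝ, w = (v.2, lam m * v.2 - v.1) := ⟨_, rfl⟩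
      have hw1 : v = uA (lam m) w := by
        rw [hw]
        show v = (lam m * v.2 - (lam m * v.2 - v.1), v.2)
        ext
        · show v.1 = lam m * v.2 - (lam m * v.2 - v.1)
          ring
        · rfl
      have hw2 : w.1 * w.2 < 0 := by
        rw [hw]
        show v.2 * (lam m * v.2 - v.1) < 0
        nlinarith
      have hw3 : (uA (lam m) ^ j) v = (uA (lam m) ^ (j + 1)) w := by
        rw [hw1, pow_succ]
        rfl
      rw [hw3]
      exact ⟨u_pos (by omega) (by omega) (by omega) hw2, u_pos2 (by omega) (by omega) (by omega) hw2⟩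
  have hpx : ∀ i : ℕ, 0 < i → i < k → ∀ y ∈ Pt q1, pr (R (x ^ i)) y ∈ Pt q2 := by
    intro i hi0 hi1
    rw [hx, pow_st R s t m hs ht, map_mul, pr_hA, one_mul]
    exact Pt_map fun v hv => hu (2 * i) (by omega) (by omega) v hv
  have hdis : Disjoint (Pt q1) (Pt q2) := by
    refine Pt_disj ?_ ?_
    · intro c v hc hv
      have hc2 : 0 < c ^ 2 := by positivity
      rcases hv with hv | hv
      · left
        have hv' : (c * v.1) * (c * v.2) < 0 := hv
        have e : (c * v.1) * (c * v.2) = c ^ 2 * (v.1 * v.2) := by ring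
        rw [e] at hv'
        by_contra hcon
        push Not at hcon
        have := mul_nonneg hc2.le hcon
        linarith
      · right
        have hv' : lam m * (c * v.2) ^ 2 < (c * v.1) * (c * v.2) := hv
        have e : (c * v.1) * (c * v.2) = c ^ 2 * (v.1 * v.2) := by ring
        have e' : lam m * (c * v.2) ^ 2 = c ^ 2 * (lam m * v.2 ^ 2) := by ring
        rw [e, e'] at hv'
        exact lt_of_mul_lt_mul_left hv' hc2.le
    · rintro v (h1 | h1) ⟨h2, h3⟩
      · linarith
      · linarith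
  have hne1 : (Pt q1).Nonempty := by
    refine Pt_ne (1, -1) ?_ (Or.inl ?_)
    · intro h0
      have := congrArg Prod.fst h0
      simp at this
    · norm_num
  have hlp : 0 < lam m := by
    rw [lam_pos (by omega)]
    have h2 : (4 : ℝ) ≤ m := by exact_mod_cast (by omega : 4 ≤ m)
    have h3 : 0 < Real.cos (Real.pi / m) := by
      apply Real.cos_pos_of_mem_Ioo
      constructor
      · have : 0 < Real.pi / m := by positivity
        linarith [Real.pi_pos]
      · have : Real.pi / m ≤ Real.pi / 4 := div_le_div_of_nonneg_left Real.pi_pos.le (by norm_num) h2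
        linarith [Real.pi_pos]
    linarith
  have hne2 : (Pt q2).Nonempty := by
    refine Pt_ne (lam m / 2, 1) ?_ ?_
    · intro h0
      have := congrArg Prod.snd h0
      simp at this
    · constructor
      · show 0 < lam m / 2 * 1
        linarith
      · show lam m / 2 * 1 < lam m * 1 ^ 2
        linarith
  have hsact : ∀ j : ℤ, j = 0 ∨ ∀ y ∈ Pt q2, (pr (R s) ^ j) y ∈ Pt q1 := by
    intro j
    have h5 := inf_pow (pr (R s)) (Pt q2) (Pt (fun v => lam m * v.2 ^ 2 < v.1 * v.2))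
      (Pt (fun v => v.1 * v.2 < 0)) ?_ ?_ ?_ ?_ j
    · rcases h5 with h5 | h5
      · exact Or.inl h5
      · right
        intro y hy
        rcases h5 y hy with h6 | h6
        · exact Pt_mono (fun v hv => Or.inr hv) h6
        · exact Pt_mono (fun v hv => Or.inl hv) h6
    · rw [hs]
      refine Pt_map ?_
      rintro v ⟨h1, h2⟩
      show lam m * v.2 ^ 2 < (2 * v.1 + lam m * v.2) * v.2
      nlinarith
    · rw [hs]
      refine Pt_map ?_
      intro v h1
      have h3 : 0 ≤ lam m * v.2 ^ 2 := by positivity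
      show lam m * v.2 ^ 2 < (2 * v.1 + lam m * v.2) * v.2
      nlinarith
    · rw [hs, ← map_inv]
      refine Pt_map ?_
      rintro v ⟨h1, h2⟩
      show (v.1 - lam m * v.2) / 2 * v.2 < 0
      nlinarith
    · rw [hs, ← map_inv]
      refine Pt_map ?_
      intro v h1
      have h3 : 0 ≤ lam m * v.2 ^ 2 := by positivity
      show (v.1 - lam m * v.2) / 2 * v.2 < 0
      nlinarith
  have hnots : ∀ i : ℕ, 0 < i → s ^ i ∉ Subgroup.zpowers z := by
    rintro i h0 ⟨j, hj⟩
    have hj' : z ^ j = s ^ i := hj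
    have h2 : pr (R s) ^ (i : ℤ) = 1 := by
      rw [zpow_natCast, ← map_pow, ← map_pow, ← hj', map_zpow, map_zpow, hgz, one_zpow]
    obtain ⟨y, hy⟩ := hne2
    rcases hsact i with h3 | h3
    · omega
    · have h4 := h3 y hy
      rw [h2] at h4
      exact Set.disjoint_left.1 hdis h4 hy
  have hmain := pp (pr.comp R) z s x hzc hgz ?_ (Pt q1) (Pt q2) hne1 hne2 hdis ?_ ?_
    (Or.inl ⟨?_, hnots 2 (by omega)⟩) h (by show pr (R h) = 1; rw [hh, map_one])
  · refine z_fin hRz (by omega : k ≠ 0) ?_ hmain hh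
    rw [Units.val_mul, Units.val_pow_eq_pow_val, abs_mul, abs_pow, abs_m2]
    simp [m1]
  · rw [eq_top_iff, ← hgen, Subgroup.closure_le]
    have h1 : s ∈ Subgroup.closure {s, x, z} := Subgroup.subset_closure (by simp)
    have h2 : x ∈ Subgroup.closure {s, x, z} := Subgroup.subset_closure (by simp)
    rintro y (rfl | rfl)
    · exact h1
    · have : y = s⁻¹ * x := by rw [hx]; group
      show y ∈ Subgroup.closure {s, x, z}
      rw [this]
      exact mul_mem (inv_mem h1) h2
  · intro j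
    rcases hsact j with h3 | h3
    · left
      rw [h3, zpow_zero]
      exact one_mem _
    · right
      intro y hy
      show pr (R (s ^ j)) y ∈ _
      rw [map_zpow, map_zpow]
      exact h3 y hy
  · intro j
    have hjm : j = k * (j / k) + j % k := (Int.mul_ediv_add_emod j k).symm
    have hm0 : (0 : ℤ) < k := by omega
    have hr0 : 0 ≤ j % k := Int.emod_nonneg j hm0.ne'
    have hr1 : j % k < k := Int.emod_lt_of_pos j hm0
    obtain ⟨i, hi⟩ : ∃ i : ℕ, j % k = i := ⟨(j % k).toNat, by omega⟩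
    have e : x ^ j = z ^ (j / k) * x ^ i := by
      conv_lhs => rw [hjm, hi, zpow_add, zpow_mul, zpow_natCast, zpow_natCast]
      rw [hz]
    rcases Nat.eq_zero_or_pos i with rfl | hi0
    · left
      rw [e, pow_zero, mul_one]
      exact ⟨_, rfl⟩
    · right
      intro y hy
      show pr (R (x ^ j)) y ∈ _
      rw [e, map_mul, map_mul, map_zpow, map_zpow, hgz, one_zpow, one_mul]
      exact hpx i hi0 (by omega) y hy
  · have := hnots 1 one_pos
    rwa [pow_one] at this

/-- no relation -/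
theorem inf_case (hgen : Subgroup.closure {s, t} = ⊤)
    (hs : R s = sA (lam 0)) (ht : R t = tA (lam 0)) (h : H) (hh : R h = 1) : h = 1 := by
  rw [lam_zero] at hs ht
  set q1 : ℝ × ℝ → Prop := fun v => 0 < v.2 * (v.1 - v.2) ∨ v.2 * (2 * v.1 + v.2) < 0 with hq1
  set q2 : ℝ × ℝ → Prop := fun v => 0 < (2 * v.1 + v.2) * (v.2 - v.1) with hq2
  have hdis : Disjoint (Pt q1) (Pt q2) := by
    refine Pt_disj ?_ ?_
    · intro c v hc hv
      have hc2 : 0 < c ^ 2 := by positivity
      rcases hv with hv | hv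
      · left
        have hv' : 0 < (c * v.2) * (c * v.1 - c * v.2) := hv
        have e : (c * v.2) * (c * v.1 - c * v.2) = c ^ 2 * (v.2 * (v.1 - v.2)) := by ring
        rw [e] at hv'
        exact (pos_iff_pos_of_mul_pos hv').1 hc2
      · right
        have hv' : (c * v.2) * (2 * (c * v.1) + c * v.2) < 0 := hv
        have e : (c * v.2) * (2 * (c * v.1) + c * v.2) = c ^ 2 * (v.2 * (2 * v.1 + v.2)) := by ring
        rw [e] at hv'
        by_contra hcon
        push Not at hcon
        have := mul_nonneg hc2.le hcon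
        linarith
    · rintro v (h1 | h1) h2
      · have h2' : 0 < (2 * v.1 + v.2) * (v.2 - v.1) := h2
        nlinarith [sq_nonneg (v.1 - v.2)]
      · have h2' : 0 < (2 * v.1 + v.2) * (v.2 - v.1) := h2
        nlinarith [sq_nonneg (2 * v.1 + v.2)]
  have hne1 : (Pt q1).Nonempty := by
    refine Pt_ne (2, 1) ?_ (Or.inl ?_)
    · intro h0
      have := congrArg Prod.snd h0
      simp at this
    · norm_num
  have hne2 : (Pt q2).Nonempty := by
    refine Pt_ne (0, 1) ?_ ?_
    · intro h0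
      have := congrArg Prod.snd h0
      simp at this
    · show (0 : ℝ) < (2 * 0 + 1) * (1 - 0)
      norm_num
  have hsact : ∀ j : ℤ, j = 0 ∨ ∀ y ∈ Pt q2, (pr (R s) ^ j) y ∈ Pt q1 := by
    intro j
    have h5 := inf_pow (pr (R s)) (Pt q2) (Pt (fun v => 0 < v.2 * (v.1 - v.2)))
      (Pt (fun v => v.2 * (2 * v.1 + v.2) < 0)) ?_ ?_ ?_ ?_ j
    · rcases h5 with h5 | h5
      · exact Or.inl h5
      · right
        intro y hy
        rcases h5 y hy with h6 | h6
        · exact Pt_mono (fun v hv => Or.inl hv) h6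
        · exact Pt_mono (fun v hv => Or.inr hv) h6
    · rw [hs]
      refine Pt_map ?_
      intro v h1
      have h1' : 0 < (2 * v.1 + v.2) * (v.2 - v.1) := h1
      show 0 < v.2 * (2 * v.1 + 2 * v.2 - v.2)
      nlinarith [sq_nonneg (2 * v.1 + v.2)]
    · rw [hs]
      refine Pt_map ?_
      intro v h1
      show 0 < v.2 * (2 * v.1 + 2 * v.2 - v.2)
      nlinarith [sq_nonneg v.2]
    · rw [hs, ← map_inv]
      refine Pt_map ?_
      intro v h1
      have h1' : 0 < (2 * v.1 + v.2) * (v.2 - v.1) := h1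
      show v.2 * (2 * ((v.1 - 2 * v.2) / 2) + v.2) < 0
      nlinarith [sq_nonneg (v.2 - v.1)]
    · rw [hs, ← map_inv]
      refine Pt_map ?_
      intro v h1
      show v.2 * (2 * ((v.1 - 2 * v.2) / 2) + v.2) < 0
      nlinarith [sq_nonneg v.2]
  have htact : ∀ j : ℤ, j = 0 ∨ ∀ y ∈ Pt q1, (pr (R t) ^ j) y ∈ Pt q2 := by
    intro j
    have h5 := inf_pow (pr (R t)) (Pt q1) (Pt (fun v => v.1 * (2 * v.1 + v.2) < 0))
      (Pt (fun v => 0 < v.1 * (v.2 - v.1))) ?_ ?_ ?_ ?_ j
    · rcases h5 with h5 | h5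
      · exact Or.inl h5
      · right
        intro y hy
        rcases h5 y hy with h6 | h6
        · refine Pt_mono (fun v hv => ?_) h6
          show 0 < (2 * v.1 + v.2) * (v.2 - v.1)
          nlinarith [sq_nonneg (2 * v.1 + v.2)]
        · refine Pt_mono (fun v hv => ?_) h6
          show 0 < (2 * v.1 + v.2) * (v.2 - v.1)
          nlinarith [sq_nonneg (v.2 - v.1)]
    · rw [ht]
      refine Pt_map ?_
      rintro v (h1 | h1)
      · show v.1 * (2 * v.1 + (-2 * 2 * v.1 + 2 * v.2)) < 0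
        nlinarith [sq_nonneg (v.1 - v.2)]
      · show v.1 * (2 * v.1 + (-2 * 2 * v.1 + 2 * v.2)) < 0
        nlinarith [sq_nonneg (2 * v.1 + v.2), sq_nonneg v.2]
    · rw [ht]
      refine Pt_map ?_
      intro v h1
      show v.1 * (2 * v.1 + (-2 * 2 * v.1 + 2 * v.2)) < 0
      nlinarith [sq_nonneg v.1]
    · rw [ht, ← map_inv]
      refine Pt_map ?_
      rintro v (h1 | h1)
      · show 0 < v.1 * ((2 * v.1 + v.2 / 2) - v.1)
        nlinarith [sq_nonneg (v.1 - v.2), sq_nonneg v.2]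
      · show 0 < v.1 * ((2 * v.1 + v.2 / 2) - v.1)
        nlinarith [sq_nonneg (2 * v.1 + v.2)]
    · rw [ht, ← map_inv]
      refine Pt_map ?_
      intro v h1
      show 0 < v.1 * ((2 * v.1 + v.2 / 2) - v.1)
      nlinarith [sq_nonneg v.1]
  have hnots : ∀ i : ℕ, 0 < i → s ^ i ∉ Subgroup.zpowers (1 : H) := by
    rintro i h0 ⟨j, hj⟩
    have hj' : (1 : H) ^ j = s ^ i := hj
    have h2 : pr (R s) ^ (i : ℤ) = 1 := by
      rw [zpow_natCast, ← map_pow, ← map_pow, ← hj', one_zpow, map_one, map_one]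
    obtain ⟨y, hy⟩ := hne2
    rcases hsact i with h3 | h3
    · omega
    · have h4 := h3 y hy
      rw [h2] at h4
      exact Set.disjoint_left.1 hdis h4 hy
  have hmain := pp (pr.comp R) 1 s t (fun h => by rw [one_mul, mul_one]) (map_one _) ?_
    (Pt q1) (Pt q2) hne1 hne2 hdis ?_ ?_ (Or.inl ⟨?_, hnots 2 (by omega)⟩) h
    (by show pr (R h) = 1; rw [hh, map_one])
  · obtain ⟨j, hj⟩ := hmain
    have hj' : (1 : H) ^ j = h := hj
    rw [← hj', one_zpow]
  · rw [eq_top_iff, ← hgen]
    refine Subgroup.closure_mono ?_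
    rintro y (rfl | rfl) <;> simp
  · intro j
    rcases hsact j with h3 | h3
    · left
      rw [h3, zpow_zero]
      exact one_mem _
    · right
      intro y hy
      show pr (R (s ^ j)) y ∈ _
      rw [map_zpow, map_zpow]
      exact h3 y hy
  · intro j
    rcases htact j with h3 | h3
    · left
      rw [h3, zpow_zero]
      exact one_mem _
    · right
      intro y hy
      show pr (R (t ^ j)) y ∈ _
      rw [map_zpow, map_zpow]
      exact h3 y hy
  · have := hnots 1 one_pos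
    rwa [pow_one] at this

/-- **dihedral Artin groups act faithfully on the plane** -/
theorem dihedral (hm : m = 0 ∨ 3 ≤ m) (hrel : alt m s t = alt m t s)
    (hgen : Subgroup.closure {s, t} = ⊤) (hs : R s = sA (lam m)) (ht : R t = tA (lam m)) (h : H)
    (hh : R h = 1) : h = 1 := by
  rcases hm with rfl | hm
  · exact inf_case R s t hgen hs ht h hh
  · rcases Nat.even_or_odd' m with ⟨k, hk | hk⟩
    · exact even_case R s t m k (by omega) hk hrel hgen hs ht h hh
    · exact odd_case R s t m k (by omega) hk hrel hgen hs ht h hh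

end main

end Pool.Agent.U166.AR
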