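import Pool.Agent.U166.AR.Thin
import Pool.Agent.N510.PA.Star
import Pool.Agent.N510.PA.Inj

/-!
# Gluing Artin groups along small subsets
-/

set_option autoImplicit false

namespace Pool.Agent.U166.AR

open Pool.Agent.Y110.FJ (ClosedE)
open Pool.Agent.N510.PA (IsSP)

/-- The subset `Δ` is admissible: it is the disjoint union of a subset `E` such that the labels of the
pairs `{s, t}` with `s` in `E` and `t` not in `E` are even (or infinite), and of a set of elements
which commute with those of `E`, and such that each of them commutes with all elements of `Δ` except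
possibly one. -/
def Admissible {B : Type} (M : CoxeterMatrix B) (Δ : Set B) : Prop :=
  ∃ E ⊆ Δ, (∀ s ∈ E, ∀ t, t ∉ E → Even (M s t)) ∧ (∀ s ∈ Δ, s ∉ E → ∀ t ∈ E, M s t = 2) ∧
    ∀ s ∈ Δ, s ∉ E → ∀ t ∈ Δ, ∀ u ∈ Δ, t ≠ s → u ≠ s → M s t ≠ 2 → M s u ≠ 2 → t = u

/-- The Coxeter matrix `M` is obtained from its restrictions to the subset `S` and to the subsets `T j`
by gluing `T j` to `S` along `S ∩ T j`, and the sets `S ∩ T j` are admissible. -/
structure Gluing {B : Type} (M : CoxeterMatrix B) (S : Set B) {J : Type} (T : J → Set B) : Prop where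
  cover : ∀ b, b ∈ S ∨ ∃ j, b ∈ T j
  inter : ∀ i j, i ≠ j → ∀ b ∈ T i, b ∈ T j → b ∈ S
  sep : ∀ j, ∀ s ∈ T j, s ∉ S → ∀ t, t ∉ T j → M s t = 0
  adm : ∀ j, Admissible M (S ∩ T j)

section good

variable {B D : Type} {N : CoxeterMatrix D} {M : CoxeterMatrix B} {φ : D → B}

/-- the inclusion of a subset -/
def inc (M : CoxeterMatrix B) (S : Set B) : Artin (res M S) →* Artin M :=
  mp (fun x => x.1) (fun _ _ => rfl)

theorem inc_gn (M : CoxeterMatrix B) (S : Set B) (s : S) : inc M S (gn _ s) = gn M s.1 := mp_gn _ _ _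

theorem thin_res {S' : Set B} (h : ∀ s ∈ S', ∀ t ∈ S', ∀ u ∈ S', t ≠ s → u ≠ s → M s t ≠ 2 →
    M s u ≠ 2 → t = u) : Thin (res M S') := by
  intro s t u hts hus h1 h2
  exact Subtype.ext (h s s.2 t t.2 u u.2 (fun h => hts (Subtype.ext h))
    (fun h => hus (Subtype.ext h)) h1 h2)

theorem good_inj (hφ : Function.Injective φ) (h : ∀ s t, N s t = M (φ s) (φ t)) (E : Set D)
    (hE : ∀ s ∈ E, ∀ b, (∀ t ∈ E, φ t ≠ b) → Even (M (φ s) b))
    (hEF : ∀ s, s ∉ E → ∀ t ∈ E, N s t = 2)
    (hth : ∀ s, s ∉ E → ∀ t u, t ≠ s → u ≠ s → N s t ≠ 2 → N s u ≠ 2 → t = u) :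
    ∃ R : Artin M →* Artin (res N E),
      (∀ g, R (mp φ h (inc N E g)) = g) ∧
      ∀ g : Artin N, rho M (mp φ h g) = 1 → R (mp φ h g) = 1 → g = 1 := by
  classical
  let r : B → Artin (res N E) := fun b =>
    if hb : ∃ s : E, φ s.1 = b then gn _ (Classical.choose hb) else 1
  have r1 : ∀ s : E, r (φ s.1) = gn _ s := by
    intro s
    have hb : ∃ s' : E, φ s'.1 = φ s.1 := ⟨s, rfl⟩
    have e : r (φ s.1) = gn _ (Classical.choose hb) := dif_pos hb
    rw [e]
    congr 1
    exact Subtype.ext (hφ (Classical.choose_spec hb))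
  have r2 : ∀ b, (∀ t ∈ E, φ t ≠ b) → r b = 1 := by
    intro b hb
    refine dif_neg ?_
    rintro ⟨s, hs⟩
    exact hb s.1 s.2 hs
  have hcase : ∀ b, (∃ s : E, φ s.1 = b) ∨ ∀ t ∈ E, φ t ≠ b := by
    intro b
    by_cases hb : ∃ s : E, φ s.1 = b
    · exact Or.inl hb
    · exact Or.inr fun t ht hb' => hb ⟨⟨t, ht⟩, hb'⟩
  have heven : ∀ (n : ℕ) (a : Artin (res N E)), Even n → alt n a 1 = alt n 1 a := by
    intro n a hn
    obtain ⟨k, hk⟩ := hn
    rw [hk, ← two_mul, alt_even, alt_even, mul_one, one_mul]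
  have hrel : ∀ s t, alt (M s t) (r s) (r t) = alt (M s t) (r t) (r s) := by
    intro b b'
    rcases hcase b with ⟨s, rfl⟩ | hb
    · rcases hcase b' with ⟨s', rfl⟩ | hb'
      · rw [r1, r1, ← h]
        exact gn_rel (res N E) s s'
      · rw [r1, r2 b' hb']
        exact heven _ _ (hE s s.2 b' hb')
    · rcases hcase b' with ⟨s', rfl⟩ | hb'
      · rw [r1, r2 b hb, M.symmetric]
        exact (heven _ _ (hE s' s'.2 b hb)).symm
      · rw [r2 b hb, r2 b' hb']
  refine ⟨lft M r hrel, ?_, ?_⟩
  · intro g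
    have : ((lft M r hrel).comp (mp φ h)).comp
        (inc N E) = MonoidHom.id _ := by
      apply hom_ext
      intro s
      show lft M r hrel (mp φ h (inc N E (gn _ s))) = gn _ s
      rw [inc_gn, mp_gn, lft_gn, r1]
    exact DFunLike.congr_fun this g
  · intro g hg1 hg2
    have hg : g ∈ Subgroup.closure (gn N '' E ∪ gn N '' Eᶜ) := by
      rw [← Set.image_union, Set.union_compl_self, Set.image_univ, closure_gn]
      trivial
    obtain ⟨a, ha, b, hb, rfl⟩ := split_closure (X := gn N '' E) (Y := gn N '' Eᶜ) (by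
      rintro _ ⟨x, hx, rfl⟩ _ ⟨y, hy, rfl⟩
      exact (gn_comm N (hEF y hy x hx)).symm) hg
    have hb0 : ∀ b ∈ Subgroup.closure (gn N '' Eᶜ), lft M r hrel (mp φ h b) = 1 := by
      intro b hb
      induction hb using Subgroup.closure_induction with
      | mem x hx =>
        obtain ⟨y, hy, rfl⟩ := hx
        rw [mp_gn, lft_gn]
        refine r2 _ fun t ht h' => hy ?_
        rw [← hφ h']
        exact ht
      | one => rw [map_one, map_one]
      | mul a b _ _ ha hb => rw [map_mul, map_mul, ha, hb, one_mul]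
      | inv a _ ha => rw [map_inv, map_inv, ha, inv_one]
    have hb1 := hb0 b hb
    have hcl : ∀ (X : Set D) (x : Artin N), x ∈ Subgroup.closure (gn N '' X) →
        ∃ x' : Artin (res N X), inc N X x' = x := by
      intro X x hx
      induction hx using Subgroup.closure_induction with
      | mem x hx =>
        obtain ⟨y, hy, rfl⟩ := hx
        exact ⟨gn _ ⟨y, hy⟩, inc_gn _ _ _⟩
      | one => exact ⟨1, map_one _⟩
      | mul a b _ _ ha hb =>
        obtain ⟨a', rfl⟩ := ha
        obtain ⟨b', rfl⟩ := hb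
        exact ⟨a' * b', map_mul _ _ _⟩
      | inv a _ ha =>
        obtain ⟨a', rfl⟩ := ha
        exact ⟨a'⁻¹, map_inv _ _⟩
    obtain ⟨a', ha'⟩ := hcl E a ha
    have ha1 : a = 1 := by
      have e1 : ((lft M r hrel).comp (mp φ h)).comp
          (inc N E) = MonoidHom.id _ := by
        apply hom_ext
        intro s
        show lft M r hrel (mp φ h (inc N E (gn _ s))) = gn _ s
        rw [inc_gn, mp_gn, lft_gn, r1]
      have e2 : lft M r hrel (mp φ h a) = a' := by
        rw [← ha']
        exact DFunLike.congr_fun e1 a'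
      rw [map_mul, map_mul, hb1, mul_one, e2] at hg2
      rw [← ha', hg2, map_one]
    rw [ha1, one_mul] at hg1 ⊢
    obtain ⟨b', hb'⟩ := hcl Eᶜ b hb
    have hb2 : b' = 1 := by
      refine thin_inj (N := res N Eᶜ) (M := M) (φ := fun x => φ x.1) ?_ ?_ (fun s t => h s.1 t.1) b' ?_
      · exact thin_res fun s hs t ht u hu => hth s hs t u
      · intro x y hxy
        exact Subtype.ext (hφ hxy)
      · rw [← hb'] at hg1
        have e3 : (mp φ h).comp (inc N Eᶜ) =
            mp (N := res N Eᶜ) (M := M) (fun x => φ x.1) (fun s t => h s.1 t.1) := by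
          apply hom_ext
          intro s
          show mp φ h (inc N Eᶜ (gn _ s)) = _
          rw [inc_gn, mp_gn]
          exact (mp_gn (N := res N Eᶜ) (M := M) (fun x => φ x.1) (fun s t => h s.1 t.1) s).symm
        rw [← e3]
        exact hg1
    rw [← hb', hb2, map_one]

/-- the subset of the restriction -/
theorem adm_inj {Δ : Set B} (hΔ : Admissible M Δ) (N' : CoxeterMatrix D) (ψ : Δ → D)
    (χ : D → B) (hχ : Function.Injective χ) (hψ : ∀ x, χ (ψ x) = x.1)
    (hN : ∀ s t, N' s t = M (χ s) (χ t)) (hr : ∀ s t, res M Δ s t = N' (ψ s) (ψ t)) :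
    ∃ (E : Set Δ) (R : Artin N' →* Artin (res (res M Δ) E)),
      Function.Injective (inc (res M Δ) E) ∧
      ∀ g : Artin (res M Δ), rho N' (mp ψ hr g) = 1 → R (mp ψ hr g) = 1 → g = 1 := by
  obtain ⟨E0, hE0, h1, h2, h3⟩ := hΔ
  have c1 : Function.Injective ψ := by
    intro x y hxy
    apply Subtype.ext
    rw [← hψ, ← hψ, hxy]
  have c2 : ∀ s ∈ {x : Δ | x.1 ∈ E0}, ∀ b, (∀ t ∈ {x : Δ | x.1 ∈ E0}, ψ t ≠ b) →
      Even (N' (ψ s) b) := by
    intro s hs b hb
    rw [hN, hψ]
    refine h1 s.1 hs (χ b) fun hb' => ?_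
    have h4 := hb ⟨χ b, hE0 hb'⟩ hb'
    apply h4
    apply hχ
    rw [hψ]
  have c3 : ∀ s, s ∉ {x : Δ | x.1 ∈ E0} → ∀ t ∈ {x : Δ | x.1 ∈ E0}, res M Δ s t = 2 :=
    fun s hs t ht => h2 s.1 s.2 hs t.1 ht
  have c4 : ∀ s, s ∉ {x : Δ | x.1 ∈ E0} → ∀ t u, t ≠ s → u ≠ s → res M Δ s t ≠ 2 →
      res M Δ s u ≠ 2 → t = u := by
    intro s hs t u hts hus hst hsu
    exact Subtype.ext (h3 s.1 s.2 hs t.1 t.2 u.1 u.2 (fun h => hts (Subtype.ext h))
      (fun h => hus (Subtype.ext h)) hst hsu)
  obtain ⟨R, hR1, hR2⟩ := good_inj (N := res M Δ) (M := N') (φ := ψ) c1 hr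
    {x : Δ | x.1 ∈ E0} c2 c3 c4
  exact ⟨_, R, Function.LeftInverse.injective (g := fun x => R (mp ψ hr x)) hR1, hR2⟩

end good

section

variable {B J : Type} {M : CoxeterMatrix B} {S : Set B} {T : J → Set B}

/-- the inclusion of an intersection in the centre -/
def kS (M : CoxeterMatrix B) (S : Set B) (T : J → Set B) (j : J) :
    Artin (res M (S ∩ T j)) →* Artin (res M S) :=
  mp (fun x => ⟨x.1, x.2.1⟩) (fun _ _ => rfl)

/-- the inclusion of an intersection in a leaf -/
def kT (M : CoxeterMatrix B) (S : Set B) (T : J → Set B) (j : J) :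
    Artin (res M (S ∩ T j)) →* Artin (res M (T j)) :=
  mp (fun x => ⟨x.1, x.2.2⟩) (fun _ _ => rfl)

theorem kS_gn (j : J) (x : (S ∩ T j : Set B)) :
    kS M S T j (gn _ x) = gn (res M S) ⟨x.1, x.2.1⟩ := mp_gn _ _ _

theorem kT_gn (j : J) (x : (S ∩ T j : Set B)) :
    kT M S T j (gn _ x) = gn (res M (T j)) ⟨x.1, x.2.2⟩ := mp_gn _ _ _

theorem isSP (h : Gluing M S T) : IsSP (kS M S T) (kT M S T) (inc M S) (fun j => inc M (T j)) where
  comm := by
    intro j e
    have : (inc M S).comp (kS M S T j) = (inc M (T j)).comp (kT M S T j) := by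
      apply hom_ext
      intro s
      show inc M S (kS M S T j (gn _ s)) = inc M (T j) (kT M S T j (gn _ s))
      rw [kS_gn, kT_gn, inc_gn, inc_gn]
    exact DFunLike.congr_fun this e
  gen := by
    rw [eq_top_iff, ← closure_gn, Subgroup.closure_le]
    rintro _ ⟨b, rfl⟩
    refine Subgroup.subset_closure ?_
    rcases h.cover b with hb | ⟨j, hb⟩
    · exact Or.inl ⟨gn _ ⟨b, hb⟩, inc_gn M S ⟨b, hb⟩⟩
    · exact Or.inr (Set.mem_iUnion.2 ⟨j, gn _ ⟨b, hb⟩, inc_gn M (T j) ⟨b, hb⟩⟩)
  univ := by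
    classical
    intro H _ f g hfg
    have hj : ∀ b, b ∉ S → ∃ j, b ∈ T j := fun b hb => (h.cover b).resolve_left hb
    let F : B → H := fun b => if hb : b ∈ S then f (gn _ ⟨b, hb⟩) else
      g (Classical.choose (hj b hb)) (gn _ ⟨b, Classical.choose_spec (hj b hb)⟩)
    have F1 : ∀ b (hb : b ∈ S), F b = f (gn _ ⟨b, hb⟩) := fun b hb => dif_pos hb
    have F2 : ∀ j b (hb : b ∈ T j), F b = g j (gn _ ⟨b, hb⟩) := by
      intro j b hb
      by_cases hbS : b ∈ S
      · rw [F1 b hbS]
        have := hfg j (gn _ ⟨b, hbS, hb⟩)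
        rwa [kS_gn, kT_gn] at this
      · have e : F b = g (Classical.choose (hj b hbS))
          (gn _ ⟨b, Classical.choose_spec (hj b hbS)⟩) := dif_neg hbS
        rw [e]
        have e2 : Classical.choose (hj b hbS) = j := by
          by_contra hne
          exact hbS (h.inter _ j hne b (Classical.choose_spec (hj b hbS)) hb)
        subst e2
        rfl
    have F3 : ∀ s t, s ∉ S → alt (M s t) (F s) (F t) = alt (M s t) (F t) (F s) := by
      intro s t hs
      obtain ⟨j, hsj⟩ := hj s hs
      by_cases ht : t ∈ T j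
      · rw [F2 j s hsj, F2 j t ht, ← map_alt, ← map_alt]
        congr 1
        exact gn_rel (res M (T j)) ⟨s, hsj⟩ ⟨t, ht⟩
      · rw [h.sep j s hsj hs t ht]
        rfl
    have F4 : ∀ s t, alt (M s t) (F s) (F t) = alt (M s t) (F t) (F s) := by
      intro s t
      by_cases hs : s ∈ S
      · by_cases ht : t ∈ S
        · rw [F1 s hs, F1 t ht, ← map_alt, ← map_alt]
          congr 1
          exact gn_rel (res M S) ⟨s, hs⟩ ⟨t, ht⟩
        · have := F3 t s ht
          rw [M.symmetric t s] at this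
          exact this.symm
      · exact F3 s t hs
    refine ⟨lft M F F4, ?_, ?_⟩
    · intro x
      have : (lft M F F4).comp (inc M S) = f := by
        apply hom_ext
        intro s
        show lft M F F4 (inc M S (gn _ s)) = f (gn _ s)
        rw [inc_gn, lft_gn]
        exact F1 s.1 s.2
      exact DFunLike.congr_fun this x
    · intro j x
      have : (lft M F F4).comp (inc M (T j)) = g j := by
        apply hom_ext
        intro s
        show lft M F F4 (inc M (T j) (gn _ s)) = g j (gn _ s)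
        rw [inc_gn, lft_gn]
        exact F2 j s.1 s.2
      exact DFunLike.congr_fun this x

theorem kS_inj (h : Gluing M S T) (j : J) : Function.Injective (kS M S T j) := by
  rw [injective_iff_map_eq_one]
  intro g hg
  obtain ⟨E, R, -, hR⟩ := adm_inj (h.adm j) (res M S) (fun x => ⟨x.1, x.2.1⟩) (fun x => x.1)
    Subtype.val_injective (fun _ => rfl) (fun _ _ => rfl) (fun _ _ => rfl)
  have h1 : rho (res M S) (kS M S T j g) = 1 := by rw [hg, map_one]
  have h2 : R (kS M S T j g) = 1 := by rw [hg, map_one]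
  exact hR g h1 h2

theorem kT_inj (h : Gluing M S T) (j : J) : Function.Injective (kT M S T j) := by
  rw [injective_iff_map_eq_one]
  intro g hg
  obtain ⟨E, R, -, hR⟩ := adm_inj (h.adm j) (res M (T j)) (fun x => ⟨x.1, x.2.2⟩) (fun x => x.1)
    Subtype.val_injective (fun _ => rfl) (fun _ _ => rfl) (fun _ _ => rfl)
  have h1 : rho (res M (T j)) (kT M S T j g) = 1 := by rw [hg, map_one]
  have h2 : R (kT M S T j g) = 1 := by rw [hg, map_one]
  exact hR g h1 h2

theorem inc_inj (h : Gluing M S T) :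
    Function.Injective (inc M S) ∧ ∀ j, Function.Injective (inc M (T j)) :=
  Pool.Agent.N510.PA.Inj.main J _ _ _ _ _ _ _ _ (isSP h) (kS_inj h) (kT_inj h)

/-- **gluing** -/
theorem glue {C : ∀ (G : Type) [Group G], Prop} (hC : ClosedE C)
    (hL : ∀ m : ℕ, C (Matrix.GeneralLinearGroup (Fin m) ℚ)) (h : Gluing M S T) :
    C (Artin M) ↔ C (Artin (res M S)) ∧ ∀ j, C (Artin (res M (T j))) := by
  obtain ⟨hi, hj⟩ := inc_inj h
  constructor
  · intro hM
    exact ⟨hC.base.of_injective _ _ _ hi hM, fun j => hC.base.of_injective _ _ _ (hj j) hM⟩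
  · rintro ⟨h1, h2⟩
    refine Pool.Agent.N510.PA.Star.main C hC J _ _ _ _ _ _ _ _ (isSP h) hi hj h1 h2 ?_
    intro j
    obtain ⟨E, R, hi2, hR⟩ := adm_inj (h.adm j) M (fun x => x.1) id Function.injective_id
      (fun _ => rfl) (fun _ _ => rfl) (fun _ _ => rfl)
    have hCE : C (Artin (res (res M (S ∩ T j)) E)) := by
      refine hC.base.of_injective _ _ ((kS M S T j).comp (inc (res M (S ∩ T j)) E)) ?_ h1
      exact (kS_inj h j).comp hi2
    refine ⟨(rho M).range × Artin (res (res M (S ∩ T j)) E), inferInstance,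
      (rho M).rangeRestrict.prod R, hC.base.prod _ _ (C_range hC hL M) hCE, ?_⟩
    intro e he
    have h3 : rho M (inc M S (kS M S T j e)) = 1 := congrArg (fun x => x.1.1) he
    have h3' : R (inc M S (kS M S T j e)) = 1 := congrArg (fun x => x.2) he
    have h4 : inc M S (kS M S T j e) = mp (N := res M (S ∩ T j)) (M := M) (fun x => x.1)
        (fun _ _ => rfl) e := by
      have : (inc M S).comp (kS M S T j) = mp (N := res M (S ∩ T j)) (M := M) (fun x => x.1)
          (fun _ _ => rfl) := by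
        apply hom_ext
        intro s
        show inc M S (kS M S T j (gn _ s)) = _
        rw [kS_gn, inc_gn]
        exact (mp_gn (N := res M (S ∩ T j)) (M := M) (fun x => x.1) (fun _ _ => rfl) s).symm
      exact DFunLike.congr_fun this e
    rw [h4] at h3 h3'
    have h5 : e = 1 := hR e h3 h3'
    rw [h5, map_one, map_one]

end

/-- Artin groups with small components are in the class -/
theorem C_thin {C : ∀ (G : Type) [Group G], Prop} (hC : ClosedE C)
    (hL : ∀ m : ℕ, C (Matrix.GeneralLinearGroup (Fin m) ℚ)) {B : Type} (M : CoxeterMatrix B)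
    (hM : Thin M) : C (Artin M) := by
  refine of_injective' hC (rho M).rangeRestrict (fun g hg => ?_) (C_range hC hL M)
  have h1 : rho M g = 1 := congrArg Subtype.val hg
  refine thin_inj (N := M) (M := M) (φ := id) hM Function.injective_id (fun _ _ => rfl) g ?_
  have : mp (N := M) (M := M) id (fun _ _ => rfl) = MonoidHom.id _ := by
    apply hom_ext
    intro s
    rw [mp_gn]
    rfl
  rw [this]
  exact h1

/-- The Coxeter matrix `M` can be separated along an admissible subset. -/
def Separable {B : Type} (M : CoxeterMatrix B) : Prop :=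
  ∃ S T : Set B, (∀ b, b ∈ S ∨ b ∈ T) ∧ S ≠ Set.univ ∧ T ≠ Set.univ ∧
    (∀ s, s ∉ S → ∀ t, t ∉ T → M s t = 0) ∧ Admissible M (S ∩ T)

theorem reduce_fin {C : ∀ (G : Type) [Group G], Prop} (hC : ClosedE C)
    (hL : ∀ m : ℕ, C (Matrix.GeneralLinearGroup (Fin m) ℚ))
    (h : ∀ (B : Type) [Finite B] (M : CoxeterMatrix B), 3 ≤ Nat.card B → ¬ Separable M →
      C (Artin M)) : ∀ (n : ℕ) (B : Type) [Finite B] (M : CoxeterMatrix B), Nat.card B = n →
      C (Artin M) := by
  intro n
  induction n using Nat.strong_induction_on with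
  | _ n ih =>
    intro B _ M hn
    by_cases hsep : Separable M
    · obtain ⟨S, T, h1, h2, h3, h4, h5⟩ := hsep
      have hlt : ∀ S : Set B, S ≠ Set.univ → Nat.card S < n := by
        intro S hS
        rw [← hn, ← Nat.card_univ (α := B)]
        exact Set.Finite.card_lt_card Set.finite_univ (Set.ssubset_univ_iff.2 hS)
      have hg : Gluing M S (fun _ : Unit => T) := by
        refine ⟨fun b => (h1 b).imp id fun h => ⟨(), h⟩, fun i j hij => absurd rfl hij, ?_, fun _ => h5⟩
        intro j s _ hs t ht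
        exact h4 s hs t ht
      rw [glue hC hL hg]
      exact ⟨ih _ (hlt S h2) S _ rfl, fun _ => ih _ (hlt T h3) T _ rfl⟩
    · by_cases h3 : 3 ≤ Nat.card B
      · exact h B M h3 hsep
      · refine C_thin hC hL M ?_
        intro s t u hts hus _ _
        by_contra htu
        apply h3
        have hinj : Function.Injective (fun i : Fin 3 => ![s, t, u] i) := by
          intro i j hij
          fin_cases i <;> fin_cases j <;> simp_all
        have := Nat.card_le_card_of_injective _ hinj
        rwa [Nat.card_eq_fintype_card, Fintype.card_fin] at this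

section colim

variable {B : Type} (M : CoxeterMatrix B)

/-- the map to the Artin group of a finite subset -/
noncomputable def qF (F : Set B) : FreeGroup B →* Artin (res M F) := by
  classical
  exact FreeGroup.lift fun b => if hb : b ∈ F then gn _ ⟨b, hb⟩ else 1

theorem qF_of {F : Set B} {b : B} (hb : b ∈ F) : qF M F (FreeGroup.of b) = gn _ ⟨b, hb⟩ := by
  classical
  rw [qF, FreeGroup.lift_apply_of, dif_pos hb]

theorem dies {w : FreeGroup B} (hw : w ∈ Subgroup.normalClosure (rels M)) :
    ∃ F0 : Finset B, ∀ F : Finset B, F0 ⊆ F → qF M (F : Set B) w = 1 := by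
  classical
  rw [Subgroup.normalClosure] at hw
  induction hw using Subgroup.closure_induction with
  | mem x hx =>
    rw [Group.mem_conjugatesOfSet_iff] at hx
    obtain ⟨_, ⟨s, t, rfl⟩, hx⟩ := hx
    obtain ⟨c, rfl⟩ := isConj_iff.1 hx
    refine ⟨{s, t}, fun F hF => ?_⟩
    have hs : s ∈ (F : Set B) := hF (by simp)
    have ht : t ∈ (F : Set B) := hF (by simp)
    have e : qF M (F : Set B) (alt (M s t) (FreeGroup.of s) (FreeGroup.of t) *
        (alt (M s t) (FreeGroup.of t) (FreeGroup.of s))⁻¹) = 1 := by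
      rw [map_mul, map_inv, map_alt, map_alt, qF_of M hs, qF_of M ht, mul_inv_eq_one]
      exact gn_rel (res M (F : Set B)) ⟨s, hs⟩ ⟨t, ht⟩
    rw [map_mul, map_mul, e, mul_one, map_inv, mul_inv_cancel]
  | one => exact ⟨∅, fun F _ => map_one _⟩
  | mul a b _ _ ha hb =>
    obtain ⟨F1, h1⟩ := ha
    obtain ⟨F2, h2⟩ := hb
    refine ⟨F1 ∪ F2, fun F hF => ?_⟩
    rw [map_mul, h1 F (Finset.union_subset_left hF), h2 F (Finset.union_subset_right hF), one_mul]
  | inv a _ ha =>
    obtain ⟨F1, h1⟩ := ha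
    refine ⟨F1, fun F hF => ?_⟩
    rw [map_inv, h1 F hF, inv_one]

/-- the maps of the directed system -/
def tr {F F' : Finset B} (h : F ≤ F') : Artin (res M (F : Set B)) →* Artin (res M (F' : Set B)) :=
  mp (fun x => ⟨x.1, h x.2⟩) (fun _ _ => rfl)

theorem tr_gn {F F' : Finset B} (h : F ≤ F') (x : (F : Set B)) :
    tr M h (gn _ x) = gn _ ⟨x.1, h x.2⟩ := mp_gn _ _ _

theorem C_colim {C : ∀ (G : Type) [Group G], Prop} (hC : ClosedE C)
    (h : ∀ F : Finset B, C (Artin (res M (F : Set B)))) : C (Artin M) := by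
  classical
  refine hC.base.colim (Finset B) (fun i j => ⟨i ∪ j, Finset.subset_union_left,
    Finset.subset_union_right⟩) (fun F => Artin (res M (F : Set B))) (fun _ _ hij => tr M hij)
    (Artin M) (fun F => inc M (F : Set B)) ?_ ?_ ?_ ?_ ?_ h
  · intro F hF x
    have : tr M hF = MonoidHom.id _ := by
      apply hom_ext
      intro s
      rw [tr_gn]
      rfl
    rw [this]
    rfl
  · intro i j k hij hjk x
    have : (tr M hjk).comp (tr M hij) = tr M (hij.trans hjk) := by
      apply hom_ext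
      intro s
      show tr M hjk (tr M hij (gn _ s)) = _
      rw [tr_gn, tr_gn, tr_gn]
    exact DFunLike.congr_fun this x
  · intro i j hij x
    have : (inc M (j : Set B)).comp (tr M hij) = inc M (i : Set B) := by
      apply hom_ext
      intro s
      show inc M _ (tr M hij (gn _ s)) = _
      rw [tr_gn, inc_gn, inc_gn]
    exact DFunLike.congr_fun this x
  · intro y
    refine ind (p := fun y => ∃ F : Finset B, ∃ x : Artin (res M (F : Set B)),
      inc M (F : Set B) x = y) ?_ ?_ ?_ ?_ y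
    · exact ⟨∅, 1, map_one _⟩
    · intro s
      exact ⟨{s}, gn _ ⟨s, by simp⟩, inc_gn _ _ _⟩
    · rintro a b ⟨F, x, rfl⟩ ⟨F', x', rfl⟩
      refine ⟨F ∪ F', tr M Finset.subset_union_left x * tr M Finset.subset_union_right x', ?_⟩
      have key : ∀ {i j : Finset B} (hij : i ≤ j) (x : Artin (res M (i : Set B))),
          inc M (j : Set B) (tr M hij x) = inc M (i : Set B) x := by
        intro i j hij x
        have : (inc M (j : Set B)).comp (tr M hij) = inc M (i : Set B) := by
          apply hom_ext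
          intro s
          show inc M _ (tr M hij (gn _ s)) = _
          rw [tr_gn, inc_gn, inc_gn]
        exact DFunLike.congr_fun this x
      rw [map_mul, key, key]
    · rintro a ⟨F, x, rfl⟩
      exact ⟨F, x⁻¹, map_inv _ _⟩
  · intro F x hx
    obtain ⟨w0, rfl⟩ := PresentedGroup.mk_surjective (rels (res M (F : Set B))) x
    obtain ⟨w, hw⟩ : ∃ w, w = FreeGroup.map (fun s : (F : Set B) => s.1) w0 := ⟨_, rfl⟩
    have e1 : PresentedGroup.mk (rels M) w = inc M (F : Set B) (PresentedGroup.mk _ w0) := by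
      have : (PresentedGroup.mk (rels M)).comp (FreeGroup.map (fun s : (F : Set B) => s.1)) =
          (inc M (F : Set B)).comp (PresentedGroup.mk _) := by
        apply FreeGroup.ext_hom
        intro s
        show PresentedGroup.mk (rels M) (FreeGroup.map _ (FreeGroup.of s)) =
          inc M (F : Set B) (gn _ s)
        rw [inc_gn, FreeGroup.map.of]
        rfl
      rw [hw]
      exact DFunLike.congr_fun this w0
    rw [hx] at e1
    have h2 : w ∈ Subgroup.normalClosure (rels M) := (QuotientGroup.eq_one_iff w).1 e1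
    obtain ⟨F0, hF0⟩ := dies M h2
    refine ⟨F ∪ F0, Finset.subset_union_left, ?_⟩
    have h3 := hF0 (F ∪ F0) Finset.subset_union_right
    rw [← h3, hw]
    have : (qF M ((F ∪ F0 : Finset B) : Set B)).comp (FreeGroup.map (fun s : (F : Set B) => s.1)) =
        (tr M (Finset.subset_union_left : F ≤ F ∪ F0)).comp (PresentedGroup.mk _) := by
      apply FreeGroup.ext_hom
      intro s
      show qF M _ (FreeGroup.map _ (FreeGroup.of s)) =
        tr M (Finset.subset_union_left : F ≤ F ∪ F0) (gn _ s)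
      rw [tr_gn, FreeGroup.map.of]
      exact qF_of M _
    exact (DFunLike.congr_fun this w0).symm

end colim

/-- **the reduction** -/
theorem reduce {C : ∀ (G : Type) [Group G], Prop} (hC : ClosedE C)
    (hL : ∀ m : ℕ, C (Matrix.GeneralLinearGroup (Fin m) ℚ))
    (h : ∀ (B : Type) [Finite B] (M : CoxeterMatrix B), 3 ≤ Nat.card B → ¬ Separable M →
      C (Artin M)) (B : Type) (M : CoxeterMatrix B) : C (Artin M) :=
  C_colim M hC fun F => reduce_fin hC hL h _ (F : Set B) _ rfl

end Pool.Agent.U166.AR
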