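import Pool.Agent.U166.AR.Alt

/-!
# The representation of the dihedral Artin groups in the plane
-/

set_option autoImplicit false

namespace Pool.Agent.U166.AR

/-- the group of the linear automorphisms of the plane -/
abbrev P2 : Type := (ℝ × ℝ) ≃ₗ[ℝ] (ℝ × ℝ)

/-- the parameter of the label `m` -/
noncomputable def lam (m : ℕ) : ℝ := if m = 0 then 2 else 2 * Real.cos (Real.pi / m)

theorem lam_zero : lam 0 = 2 := if_pos rfl

theorem lam_pos {m : ℕ} (h : m ≠ 0) : lam m = 2 * Real.cos (Real.pi / m) := if_neg h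

theorem lam_two : lam 2 = 0 := by
  rw [lam_pos two_ne_zero]
  simp

/-- the first generator -/
noncomputable def sA (l : ℝ) : P2 where
  toFun v := (2 * v.1 + l * v.2, v.2)
  map_add' v w := by
    ext
    · show 2 * (v.1 + w.1) + l * (v.2 + w.2) = 2 * v.1 + l * v.2 + (2 * w.1 + l * w.2)
      ring
    · rfl
  map_smul' c v := by
    ext
    · show 2 * (c * v.1) + l * (c * v.2) = c * (2 * v.1 + l * v.2)
      ring
    · rfl
  invFun v := ((v.1 - l * v.2) / 2, v.2)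
  left_inv v := by
    ext
    · show (2 * v.1 + l * v.2 - l * v.2) / 2 = v.1
      ring
    · rfl
  right_inv v := by
    ext
    · show 2 * ((v.1 - l * v.2) / 2) + l * v.2 = v.1
      ring
    · rfl

/-- the second generator -/
noncomputable def tA (l : ℝ) : P2 where
  toFun v := (v.1, -2 * l * v.1 + 2 * v.2)
  map_add' v w := by
    ext
    · rfl
    · show -2 * l * (v.1 + w.1) + 2 * (v.2 + w.2) = -2 * l * v.1 + 2 * v.2 + (-2 * l * w.1 + 2 * w.2)
      ring
  map_smul' c v := by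
    ext
    · rfl
    · show -2 * l * (c * v.1) + 2 * (c * v.2) = c * (-2 * l * v.1 + 2 * v.2)
      ring
  invFun v := (v.1, l * v.1 + v.2 / 2)
  left_inv v := by
    ext
    · rfl
    · show l * v.1 + (-2 * l * v.1 + 2 * v.2) / 2 = v.2
      ring
  right_inv v := by
    ext
    · rfl
    · show -2 * l * v.1 + 2 * (l * v.1 + v.2 / 2) = v.2
      ring

/-- the rotation -/
noncomputable def uA (l : ℝ) : P2 where
  toFun v := (l * v.1 - v.2, v.1)
  map_add' v w := by
    ext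
    · show l * (v.1 + w.1) - (v.2 + w.2) = l * v.1 - v.2 + (l * w.1 - w.2)
      ring
    · rfl
  map_smul' c v := by
    ext
    · show l * (c * v.1) - (c * v.2) = c * (l * v.1 - v.2)
      ring
    · rfl
  invFun v := (v.2, l * v.2 - v.1)
  left_inv v := by
    ext
    · rfl
    · show l * v.1 - (l * v.1 - v.2) = v.2
      ring
  right_inv v := by
    ext
    · show l * v.2 - (l * v.2 - v.1) = v.1
      ring
    · rfl

/-- multiplication by `c ≠ 0` -/
noncomputable def hA (c : ℝˣ) : P2 := LinearEquiv.smulOfUnit c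

theorem hA_apply (c : ℝˣ) (v : ℝ × ℝ) : hA c v = (c : ℝ) • v := rfl

theorem hA_comm (c : ℝˣ) (g : P2) : g * hA c = hA c * g := by
  apply LinearEquiv.ext
  intro v
  show g ((c : ℝ) • v) = (c : ℝ) • g v
  rw [map_smul]

theorem hA_mul (c d : ℝˣ) : hA (c * d) = hA c * hA d := by
  apply LinearEquiv.ext
  intro v
  show ((c * d : ℝˣ) : ℝ) • v = (c : ℝ) • (d : ℝ) • v
  rw [Units.val_mul, mul_smul]

theorem hA_one : hA 1 = 1 := by
  apply LinearEquiv.ext
  intro v
  show ((1 : ℝˣ) : ℝ) • v = v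
  rw [Units.val_one, one_smul]

/-- scalars -/
noncomputable def hAh : ℝˣ →* P2 where
  toFun := hA
  map_one' := hA_one
  map_mul' := hA_mul

theorem hA_pow (c : ℝˣ) (n : ℕ) : hA (c ^ n) = hA c ^ n := map_pow hAh c n

theorem hA_zpow (c : ℝˣ) (n : ℤ) : hA (c ^ n) = hA c ^ n := map_zpow hAh c n

/-- `-2` -/
noncomputable def m2 : ℝˣ := Units.mk0 (-2) (by norm_num)

/-- `-1` -/
noncomputable def m1 : ℝˣ := -1

theorem st_eq (l : ℝ) : sA l * tA l = hA m2 * (uA l) ^ 2 := by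
  apply LinearEquiv.ext
  intro v
  rw [pow_two]
  show (2 * v.1 + l * (-2 * l * v.1 + 2 * v.2), -2 * l * v.1 + 2 * v.2) =
    ((-2) * (l * (l * v.1 - v.2) - v.1), (-2) * (l * v.1 - v.2))
  ext
  · show 2 * v.1 + l * (-2 * l * v.1 + 2 * v.2) = (-2) * (l * (l * v.1 - v.2) - v.1)
    ring
  · show -2 * l * v.1 + 2 * v.2 = (-2) * (l * v.1 - v.2)
    ring

theorem su_ut (l : ℝ) : sA l * uA l = uA l * tA l := by
  apply LinearEquiv.ext
  intro v
  show (2 * (l * v.1 - v.2) + l * v.1, v.1) = (l * v.1 - (-2 * l * v.1 + 2 * v.2), v.1)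
  ext
  · show 2 * (l * v.1 - v.2) + l * v.1 = l * v.1 - (-2 * l * v.1 + 2 * v.2)
    ring
  · rfl

/-- the sines -/
noncomputable def sn (m : ℕ) (i : ℤ) : ℝ := Real.sin (i * (Real.pi / m))

theorem sn_rec {m : ℕ} (h : m ≠ 0) (i : ℤ) : lam m * sn m i = sn m (i + 1) + sn m (i - 1) := by
  rw [lam_pos h]
  unfold sn
  have e1 : ((i + 1 : ℤ) : ℝ) * (Real.pi / m) = i * (Real.pi / m) + Real.pi / m := by
    push_cast
    ring
  have e2 : ((i - 1 : ℤ) : ℝ) * (Real.pi / m) = i * (Real.pi / m) - Real.pi / m := by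
    push_cast
    ring
  rw [e1, e2, Real.sin_add, Real.sin_sub]
  ring

theorem sn_zero (m : ℕ) : sn m 0 = 0 := by
  unfold sn
  rw [Int.cast_zero, zero_mul, Real.sin_zero]

theorem sn_m {m : ℕ} (h : m ≠ 0) : sn m m = 0 := by
  unfold sn
  have hm : (m : ℝ) ≠ 0 := Nat.cast_ne_zero.2 h
  have : ((m : ℤ) : ℝ) * (Real.pi / m) = Real.pi := by
    push_cast
    field_simp
  rw [this, Real.sin_pi]

theorem sn_pos {m : ℕ} {i : ℤ} (h0 : 0 < i) (h1 : i < m) : 0 < sn m i := by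
  unfold sn
  have hm : (0 : ℝ) < m := by
    have : (0 : ℤ) < m := h0.trans h1
    exact_mod_cast this
  have hi : (0 : ℝ) < i := by exact_mod_cast h0
  have hi1 : (i : ℝ) < m := by exact_mod_cast h1
  refine Real.sin_pos_of_pos_of_lt_pi (mul_pos hi (div_pos Real.pi_pos hm)) ?_
  rw [← mul_div_assoc, div_lt_iff₀ hm, mul_comm]
  exact mul_lt_mul_of_pos_left hi1 Real.pi_pos

theorem sn_nonneg {m : ℕ} {i : ℤ} (h0 : 0 ≤ i) (h1 : i ≤ m) (hm : m ≠ 0) : 0 ≤ sn m i := by
  rcases h0.lt_or_eq with h | rfl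
  · rcases h1.lt_or_eq with h' | rfl
    · exact (sn_pos h h').le
    · rw [sn_m hm]
  · rw [sn_zero]

theorem sn_neg (m : ℕ) (i : ℤ) : sn m (-i) = - sn m i := by
  unfold sn
  rw [Int.cast_neg, neg_mul, Real.sin_neg]

/-- the powers of the rotation -/
theorem uA_pow {m : ℕ} (h : m ≠ 0) (i : ℕ) (v : ℝ × ℝ) :
    sn m 1 • ((uA (lam m)) ^ i) v =
      (sn m (i + 1) * v.1 - sn m i * v.2, sn m i * v.1 - sn m (i - 1) * v.2) := by
  induction i with
  | zero =>
    rw [pow_zero]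
    have e1 : sn m ((0 : ℕ) + 1) = sn m 1 := by norm_num
    have e2 : sn m (((0 : ℕ) : ℤ) - 1) = - sn m 1 := by
      rw [← sn_neg]
      norm_num
    have e3 : sn m ((0 : ℕ) : ℤ) = 0 := by
      rw [Nat.cast_zero, sn_zero]
    rw [e1, e2, e3]
    show (sn m 1 * v.1, sn m 1 * v.2) = _
    ext
    · show sn m 1 * v.1 = sn m 1 * v.1 - 0 * v.2
      ring
    · show sn m 1 * v.2 = 0 * v.1 - - sn m 1 * v.2
      ring
  | succ i ih =>
    rw [pow_succ']
    show sn m 1 • uA (lam m) (((uA (lam m)) ^ i) v) = _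
    rw [← map_smul, ih]
    show (lam m * (sn m (i + 1) * v.1 - sn m i * v.2) - (sn m i * v.1 - sn m (i - 1) * v.2),
      sn m (i + 1) * v.1 - sn m i * v.2) = _
    have e1 : ((i + 1 : ℕ) : ℤ) = (i : ℤ) + 1 := by push_cast; ring
    rw [e1]
    have r1 := sn_rec h ((i : ℤ) + 1)
    have r2 := sn_rec h (i : ℤ)
    have e2 : (i : ℤ) + 1 - 1 = i := by ring
    rw [e2] at r1 ⊢
    ext
    · show lam m * (sn m (i + 1) * v.1 - sn m i * v.2) - (sn m i * v.1 - sn m (i - 1) * v.2) =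
        sn m (i + 1 + 1) * v.1 - sn m (i + 1) * v.2
      linear_combination v.1 * r1 - v.2 * r2
    · rfl

theorem sn_one_pos {m : ℕ} (h : 2 ≤ m) : 0 < sn m 1 := sn_pos one_pos (by exact_mod_cast h)

theorem sn_m_succ {m : ℕ} (h : m ≠ 0) : sn m (m + 1) = - sn m 1 := by
  unfold sn
  have hm : (m : ℝ) ≠ 0 := Nat.cast_ne_zero.2 h
  have : (((m : ℤ) + 1 : ℤ) : ℝ) * (Real.pi / m) = Real.pi / m + Real.pi := by
    push_cast
    field_simp
    ring
  rw [this, Real.sin_add_pi, Int.cast_one, one_mul]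

theorem sn_m_pred {m : ℕ} (h : m ≠ 0) : sn m (m - 1) = sn m 1 := by
  unfold sn
  have hm : (m : ℝ) ≠ 0 := Nat.cast_ne_zero.2 h
  have : (((m : ℤ) - 1 : ℤ) : ℝ) * (Real.pi / m) = Real.pi - Real.pi / m := by
    push_cast
    field_simp
  rw [this, Real.sin_pi_sub, Int.cast_one, one_mul]

theorem uA_m {m : ℕ} (h : 2 ≤ m) : (uA (lam m)) ^ m = hA m1 := by
  have h0 : m ≠ 0 := by omega
  apply LinearEquiv.ext
  intro v
  have h1 := uA_pow h0 m v
  have hs := sn_one_pos h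
  apply smul_right_injective (ℝ × ℝ) hs.ne'
  show sn m 1 • ((uA (lam m)) ^ m) v = sn m 1 • (hA m1 v)
  rw [h1, sn_m h0, sn_m_succ h0, sn_m_pred h0, hA_apply]
  show _ = (sn m 1 * (((-1 : ℝˣ) : ℝ) * v.1), sn m 1 * (((-1 : ℝˣ) : ℝ) * v.2))
  rw [Units.val_neg, Units.val_one]
  ext
  · show - sn m 1 * v.1 - 0 * v.2 = sn m 1 * (-1 * v.1)
    ring
  · show 0 * v.1 - sn m 1 * v.2 = sn m 1 * (-1 * v.2)
    ring

/-- the relation in the plane -/
theorem rel2 {m : ℕ} (h : m ≠ 1) : alt m (sA (lam m)) (tA (lam m)) = alt m (tA (lam m)) (sA (lam m)) := by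
  rcases Nat.eq_zero_or_pos m with rfl | hpos
  · rfl
  have h2 : 2 ≤ m := by omega
  set s := sA (lam m)
  set t := tA (lam m)
  set u := uA (lam m)
  have hst : s * t = hA m2 * u ^ 2 := st_eq _
  have hsu : s * u = u * t := su_ut _
  have hum : u ^ m = hA m1 := uA_m h2
  have hpw : ∀ k : ℕ, (s * t) ^ k = hA (m2 ^ k) * u ^ (2 * k) := by
    intro k
    rw [hst, (show Commute (hA m2) (u ^ 2) from (hA_comm m2 (u ^ 2)).symm).mul_pow, ← pow_mul, hA_pow]
  rcases Nat.even_or_odd' m with ⟨k, hk | hk⟩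
  · have h3 : (s * t) ^ k = hA (m2 ^ k * m1) := by
      rw [hpw, ← hk, hum, hA_mul]
    have h4 : (t * s) ^ k = s⁻¹ * (s * t) ^ k * s := by
      have : t * s = s⁻¹ * (s * t) * s := by group
      have h5 := conj_pow (a := s⁻¹) (b := s * t) (i := k)
      rw [inv_inv] at h5
      rw [this, h5]
    rw [hk, alt_even, alt_even, h4, h3, mul_assoc, ← hA_comm, ← mul_assoc, inv_mul_cancel, one_mul]
  · have h3 : (s * t) ^ k = hA (m2 ^ k * m1) * u⁻¹ := by
      have : u ^ (2 * k) = hA m1 * u⁻¹ := by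
        rw [← hum, hk, pow_succ, mul_assoc, mul_inv_cancel, mul_one]
      rw [hpw, this, hA_mul, mul_assoc]
    rw [hk, alt_odd, alt_odd', h3, mul_assoc, ← mul_assoc t, hA_comm, mul_assoc]
    congr 1
    have : s = u * t * u⁻¹ := by
      rw [← hsu]
      group
    rw [this]
    group

end Pool.Agent.U166.AR
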