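import Pool.Agent.U166.AR.Di
import Pool.Agent.Y430.SS.Lf
import Pool.Agent.Y110.FJ.Stm

/-!
# A representation of Artin groups
-/

set_option autoImplicit false

namespace Pool.Agent.U166.AR

open Pool.Agent.Y110.FJ (ClosedE)

variable {B D : Type}

open Classical in
/-- the coefficients -/
noncomputable def co (M : CoxeterMatrix B) (s t : B) : ℝ :=
  if s = t then 1 else if WellOrderingRel s t then lam (M s t) else -2 * lam (M s t)

theorem co_self (M : CoxeterMatrix B) (s : B) : co M s s = 1 := if_pos rfl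

theorem co_lt (M : CoxeterMatrix B) {s t : B} (h : WellOrderingRel s t) : co M s t = lam (M s t) := by
  have hne : s ≠ t := by
    rintro rfl
    exact irrefl_of WellOrderingRel s h
  rw [co, if_neg hne, if_pos h]

theorem co_gt (M : CoxeterMatrix B) {s t : B} (h : WellOrderingRel s t) :
    co M t s = -2 * lam (M s t) := by
  have hne : t ≠ s := by
    rintro rfl
    exact irrefl_of WellOrderingRel _ h
  rw [co, if_neg hne, if_neg (asymm_of WellOrderingRel h), M.symmetric]

theorem co_two (M : CoxeterMatrix B) {s t : B} (hne : s ≠ t) (h : M s t = 2) : co M s t = 0 := by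
  rw [co, if_neg hne, h, lam_two]
  simp

/-- the space -/
abbrev VV (B : Type) : Type := (B →₀ ℝ) × (B →₀ ℝ)

/-- the linear forms -/
noncomputable def Ph (M : CoxeterMatrix B) (s : B) : VV B →ₗ[ℝ] ℝ :=
  (Finsupp.linearCombination ℝ (co M s)).comp (LinearMap.fst ℝ (B →₀ ℝ) (B →₀ ℝ)) +
    (Finsupp.lapply s).comp (LinearMap.snd ℝ (B →₀ ℝ) (B →₀ ℝ))

theorem Ph_apply (M : CoxeterMatrix B) (s : B) (v : VV B) :
    Ph M s v = (v.1.sum fun t a => a * co M s t) + v.2 s := rfl

/-- the vectors -/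
noncomputable def ev (s : B) : VV B := (Finsupp.single s 1, 0)

/-- the vectors of the second kind -/
noncomputable def fv (s : B) : VV B := (0, Finsupp.single s 1)

theorem Ph_ev (M : CoxeterMatrix B) (s t : B) : Ph M s (ev t) = co M s t := by
  rw [Ph_apply]
  show ((Finsupp.single t (1 : ℝ)).sum fun t a => a * co M s t) + 0 = _
  rw [Finsupp.sum_single_index (by rw [zero_mul]), one_mul, add_zero]

open Classical in
theorem Ph_fv (M : CoxeterMatrix B) (s t : B) : Ph M s (fv t) = if t = s then 1 else 0 := by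
  rw [Ph_apply]
  show ((0 : B →₀ ℝ).sum fun t a => a * co M s t) + (Finsupp.single t (1 : ℝ)) s = _
  rw [Finsupp.sum_zero_index, zero_add, Finsupp.single_apply]

/-- the generators -/
noncomputable def sg (M : CoxeterMatrix B) (s : B) : VV B ≃ₗ[ℝ] VV B where
  toFun v := v + Ph M s v • ev s
  map_add' v w := by
    rw [map_add]
    module
  map_smul' c v := by
    rw [map_smul, smul_eq_mul, mul_smul, RingHom.id_apply, smul_add]
  invFun v := v - (Ph M s v / 2) • ev s
  left_inv v := by
    show v + Ph M s v • ev s - (Ph M s (v + Ph M s v • ev s) / 2) • ev s = v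
    rw [map_add, map_smul, Ph_ev, co_self, smul_eq_mul, mul_one]
    have : (Ph M s v + Ph M s v) / 2 = Ph M s v := by ring
    rw [this, add_sub_cancel_right]
  right_inv v := by
    show v - (Ph M s v / 2) • ev s + Ph M s (v - (Ph M s v / 2) • ev s) • ev s = v
    rw [map_sub, map_smul, Ph_ev, co_self, smul_eq_mul, mul_one]
    have : Ph M s v - Ph M s v / 2 = Ph M s v / 2 := by ring
    rw [this, sub_add_cancel]

theorem sg_apply (M : CoxeterMatrix B) (s : B) (v : VV B) : sg M s v = v + Ph M s v • ev s := rfl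

theorem sg_inv_apply (M : CoxeterMatrix B) (s : B) (v : VV B) :
    (sg M s)⁻¹ v = v - (Ph M s v / 2) • ev s := rfl

theorem sg_fix {M : CoxeterMatrix B} {s : B} {v : VV B} (h : Ph M s v = 0) : sg M s v = v := by
  rw [sg_apply, h, zero_smul, add_zero]

/-- the plane of two generators -/
noncomputable def jj (s t : B) (w : ℝ × ℝ) : VV B := w.1 • ev s + w.2 • ev t

theorem sg_jj {M : CoxeterMatrix B} {s t : B} (h : WellOrderingRel s t) {u : VV B}
    (hs : Ph M s u = 0) (w : ℝ × ℝ) :
    sg M s (u + jj s t w) = u + jj s t (sA (lam (M s t)) w) := by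
  rw [sg_apply, map_add, hs, zero_add, jj, map_add, map_smul, map_smul, Ph_ev, Ph_ev, co_self,
    co_lt M h]
  show u + (w.1 • ev s + w.2 • ev t) + (w.1 * 1 + w.2 * lam (M s t)) • ev s =
    u + ((2 * w.1 + lam (M s t) * w.2) • ev s + w.2 • ev t)
  module

theorem sg_jj' {M : CoxeterMatrix B} {s t : B} (h : WellOrderingRel s t) {u : VV B}
    (ht : Ph M t u = 0) (w : ℝ × ℝ) :
    sg M t (u + jj s t w) = u + jj s t (tA (lam (M s t)) w) := by
  rw [sg_apply, map_add, ht, zero_add, jj, map_add, map_smul, map_smul, Ph_ev, Ph_ev, co_self,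
    co_gt M h]
  show u + (w.1 • ev s + w.2 • ev t) + (w.1 * (-2 * lam (M s t)) + w.2 * 1) • ev t =
    u + (w.1 • ev s + (-2 * lam (M s t) * w.1 + 2 * w.2) • ev t)
  module

theorem alt_jj {s t : B} {u : VV B} {a b : VV B ≃ₗ[ℝ] VV B} {a' b' : P2} (n : ℕ)
    (ha : ∀ w, a (u + jj s t w) = u + jj s t (a' w))
    (hb : ∀ w, b (u + jj s t w) = u + jj s t (b' w)) (w : ℝ × ℝ) :
    (alt n a b) (u + jj s t w) = u + jj s t ((alt n a' b') w) := by
  induction n generalizing a b a' b' with
  | zero => rfl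
  | succ n ih =>
    rw [alt_succ, alt_succ]
    show a ((alt n b a) (u + jj s t w)) = u + jj s t (a' ((alt n b' a') w))
    rw [ih hb ha, ha]

/-- the braid relation for two generators in order -/
theorem braid (M : CoxeterMatrix B) {s t : B} (h : WellOrderingRel s t) :
    alt (M s t) (sg M s) (sg M t) = alt (M s t) (sg M t) (sg M s) := by
  have hne : s ≠ t := by
    rintro rfl
    exact irrefl_of WellOrderingRel s h
  have hm : M s t ≠ 1 := M.off_diagonal s t hne
  apply LinearEquiv.ext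
  intro v
  set l := lam (M s t) with hl
  have hd : 0 < 1 + 2 * l ^ 2 := by positivity
  set x := (Ph M s v - l * Ph M t v) / (1 + 2 * l ^ 2) with hx
  set y := (Ph M t v + 2 * l * Ph M s v) / (1 + 2 * l ^ 2) with hy
  obtain ⟨u, hu⟩ : ∃ u, u = v - jj s t (x, y) := ⟨_, rfl⟩
  have e1 : Ph M s (jj s t (x, y)) = Ph M s v := by
    rw [jj, map_add, map_smul, map_smul, Ph_ev, Ph_ev, co_self, co_lt M h, ← hl, smul_eq_mul,
      smul_eq_mul, hx, hy]
    field_simp
    ring
  have e2 : Ph M t (jj s t (x, y)) = Ph M t v := by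
    rw [jj, map_add, map_smul, map_smul, Ph_ev, Ph_ev, co_self, co_gt M h, ← hl, smul_eq_mul,
      smul_eq_mul, hx, hy]
    field_simp
    ring
  have hus : Ph M s u = 0 := by rw [hu, map_sub, e1, sub_self]
  have hut : Ph M t u = 0 := by rw [hu, map_sub, e2, sub_self]
  have hv : v = u + jj s t (x, y) := by rw [hu, sub_add_cancel]
  rw [hv, alt_jj _ (sg_jj h hus) (sg_jj' h hut), alt_jj _ (sg_jj' h hut) (sg_jj h hus), rel2 hm]

theorem braid' (M : CoxeterMatrix B) (s t : B) :
    alt (M s t) (sg M s) (sg M t) = alt (M s t) (sg M t) (sg M s) := by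
  rcases trichotomous_of WellOrderingRel s t with h | h | h
  · exact braid M h
  · rw [h]
  · have := braid M h
    rw [M.symmetric t s] at this
    exact this.symm

/-- **the representation** -/
noncomputable def rho (M : CoxeterMatrix B) : Artin M →* (VV B ≃ₗ[ℝ] VV B) :=
  lft M (sg M) (braid' M)

theorem rho_gn (M : CoxeterMatrix B) (s : B) : rho M (gn M s) = sg M s := lft_gn _ _ _ _

/-! ### the image is in the class -/

theorem of_injective' {C : ∀ (G : Type) [Group G], Prop} (hC : ClosedE C) {G H : Type} [Group G]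
    [Group H] (f : G →* H) (hf : ∀ g, f g = 1 → g = 1) (h : C H) : C G :=
  hC.base.of_injective G H f ((injective_iff_map_eq_one f).2 hf) h

theorem C_end {C : ∀ (G : Type) [Group G], Prop} (hC : ClosedE C)
    (hL : ∀ m : ℕ, C (Matrix.GeneralLinearGroup (Fin m) ℚ))
    (V : Type) [AddCommGroup V] [Module ℚ V] [Module.Finite ℚ V] : C (Module.End ℚ V)ˣ := by
  let b := Module.finBasis ℚ V
  let e2 : (Module.End ℚ V)ˣ ≃* Matrix.GeneralLinearGroup (Fin (Module.finrank ℚ V)) ℚ :=
    Units.mapEquiv (LinearMap.toMatrixAlgEquiv b).toMulEquiv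
  exact hC.base.of_injective _ _ e2.toMonoidHom e2.injective (hL _)

theorem lam_int (m : ℕ) : IsIntegral ℚ (lam m) := by
  rcases Nat.eq_zero_or_pos m with rfl | hm
  · rw [lam_zero]
    have h := isIntegral_algebraMap (R := ℚ) (A := ℝ) (x := 2)
    rwa [map_ofNat] at h
  · rw [lam_pos (by omega)]
    have h := Real.isIntegral_two_mul_cos_rat_mul_pi (1 / m : ℚ)
    have e : (((1 / m : ℚ) : ℝ)) * Real.pi = Real.pi / m := by
      push_cast
      ring
    rw [e] at h
    exact h.tower_top

section fin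

variable (M : CoxeterMatrix B) (F : Finset B)

open Classical in
/-- the number field of a finite set of generators -/
noncomputable def kk : IntermediateField ℚ ℝ :=
  IntermediateField.adjoin ℚ ((F ×ˢ F).image fun p => lam (M p.1 p.2) : Finset ℝ)

theorem kk_fin : FiniteDimensional ℚ (kk M F) := by
  classical
  have : Finite (((F ×ˢ F).image fun p => lam (M p.1 p.2) : Finset ℝ) : Set ℝ) := Finset.finite_toSet _
  refine IntermediateField.finiteDimensional_adjoin fun x hx => ?_
  rw [Finset.mem_coe, Finset.mem_image] at hx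
  obtain ⟨p, -, rfl⟩ := hx
  exact lam_int _

theorem lam_mem {s t : B} (hs : s ∈ F) (ht : t ∈ F) : lam (M s t) ∈ kk M F := by
  classical
  refine IntermediateField.subset_adjoin ℚ _ ?_
  rw [Finset.mem_coe, Finset.mem_image]
  exact ⟨(s, t), Finset.mem_product.2 ⟨hs, ht⟩, rfl⟩

theorem co_mem {s t : B} (hs : s ∈ F) (ht : t ∈ F) : co M s t ∈ kk M F := by
  classical
  rw [co]
  split_ifs
  · exact one_mem _
  · exact lam_mem M F hs ht
  · exact mul_mem (neg_mem (ofNat_mem _ 2)) (lam_mem M F hs ht)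

/-- the rational lattice of a finite set of generators -/
noncomputable def LL : Submodule ℚ (VV B) where
  carrier := {v | (∀ t, t ∉ F → v.1 t = 0 ∧ v.2 t = 0) ∧ ∀ t, v.1 t ∈ kk M F ∧ v.2 t ∈ kk M F}
  add_mem' := by
    rintro v w ⟨h1, h2⟩ ⟨h3, h4⟩
    refine ⟨fun t ht => ⟨?_, ?_⟩, fun t => ⟨?_, ?_⟩⟩
    · show v.1 t + w.1 t = 0
      rw [(h1 t ht).1, (h3 t ht).1, add_zero]
    · show v.2 t + w.2 t = 0
      rw [(h1 t ht).2, (h3 t ht).2, add_zero]
    · exact add_mem (h2 t).1 (h4 t).1
    · exact add_mem (h2 t).2 (h4 t).2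
  zero_mem' := ⟨fun t _ => ⟨rfl, rfl⟩, fun t => ⟨zero_mem _, zero_mem _⟩⟩
  smul_mem' := by
    rintro c v ⟨h1, h2⟩
    refine ⟨fun t ht => ⟨?_, ?_⟩, fun t => ⟨?_, ?_⟩⟩
    · show c • v.1 t = 0
      rw [(h1 t ht).1, smul_zero]
    · show c • v.2 t = 0
      rw [(h1 t ht).2, smul_zero]
    · exact IntermediateField.smul_mem _ (h2 t).1
    · exact IntermediateField.smul_mem _ (h2 t).2

theorem mem_LL {v : VV B} : v ∈ LL M F ↔
    (∀ t, t ∉ F → v.1 t = 0 ∧ v.2 t = 0) ∧ ∀ t, v.1 t ∈ kk M F ∧ v.2 t ∈ kk M F := Iff.rfl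

theorem LL_fin : Module.Finite ℚ (LL M F) := by
  have := kk_fin M F
  let f : LL M F →ₗ[ℚ] (F → kk M F) × (F → kk M F) :=
    { toFun := fun v => (fun t => ⟨v.1.1 t, (v.2.2 t).1⟩, fun t => ⟨v.1.2 t, (v.2.2 t).2⟩)
      map_add' := fun v w => rfl
      map_smul' := fun c v => rfl }
  refine Module.Finite.of_injective f ?_
  intro v w hvw
  have h1 := congrArg Prod.fst hvw
  have h2 := congrArg Prod.snd hvw
  apply Subtype.ext
  refine Prod.ext ?_ ?_
  · ext t
    by_cases ht : t ∈ F
    · exact congrArg Subtype.val (congrFun h1 ⟨t, ht⟩)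
    · rw [(v.2.1 t ht).1, (w.2.1 t ht).1]
  · ext t
    by_cases ht : t ∈ F
    · exact congrArg Subtype.val (congrFun h2 ⟨t, ht⟩)
    · rw [(v.2.1 t ht).2, (w.2.1 t ht).2]

theorem Ph_mem {s : B} (hs : s ∈ F) {v : VV B} (hv : v ∈ LL M F) : Ph M s v ∈ kk M F := by
  rw [Ph_apply]
  refine add_mem (sum_mem fun t ht => ?_) (hv.2 s).2
  have htF : t ∈ F := by
    by_contra h
    rw [Finsupp.mem_support_iff] at ht
    exact ht (hv.1 t h).1
  exact mul_mem (hv.2 t).1 (co_mem M F hs htF)

theorem LL_add {s : B} (hs : s ∈ F) {v : VV B} (hv : v ∈ LL M F) {c : ℝ} (hc : c ∈ kk M F) :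
    v + c • ev s ∈ LL M F := by
  classical
  obtain ⟨h1, h2⟩ := hv
  have e1 : ∀ t, (v + c • ev s).1 t = v.1 t + c * (if s = t then 1 else 0) := by
    intro t
    show v.1 t + c * (Finsupp.single s (1 : ℝ)) t = _
    rw [Finsupp.single_apply]
  have e2 : ∀ t, (v + c • ev s).2 t = v.2 t := by
    intro t
    show v.2 t + c * 0 = _
    rw [mul_zero, add_zero]
  refine ⟨fun t ht => ⟨?_, ?_⟩, fun t => ⟨?_, ?_⟩⟩
  · rw [e1, (h1 t ht).1, if_neg (fun h : s = t => ht (h ▸ hs)), mul_zero, add_zero]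
  · rw [e2, (h1 t ht).2]
  · rw [e1]
    refine add_mem (h2 t).1 (mul_mem hc ?_)
    split_ifs
    · exact one_mem _
    · exact zero_mem _
  · rw [e2]
    exact (h2 t).2

/-- the group generated by finitely many generators -/
noncomputable def HF : Subgroup (VV B ≃ₗ[ℝ] VV B) := Subgroup.closure (sg M '' F)

theorem HF_LL {g : VV B ≃ₗ[ℝ] VV B} (hg : g ∈ HF M F) :
    (∀ v ∈ LL M F, g v ∈ LL M F) ∧ ∀ v ∈ LL M F, g⁻¹ v ∈ LL M F := by
  induction hg using Subgroup.closure_induction with
  | mem x hx =>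
    obtain ⟨s, hs, rfl⟩ := hx
    refine ⟨fun v hv => ?_, fun v hv => ?_⟩
    · rw [sg_apply]
      exact LL_add M F hs hv (Ph_mem M F hs hv)
    · have e : (sg M s)⁻¹ v = v + (-(Ph M s v / 2)) • ev s := by
        rw [sg_inv_apply]
        module
      rw [e]
      refine LL_add M F hs hv (neg_mem (div_mem (Ph_mem M F hs hv) (ofNat_mem _ 2)))
  | one => exact ⟨fun v hv => hv, fun v hv => hv⟩
  | mul a b _ _ ha hb =>
    refine ⟨fun v hv => ha.1 _ (hb.1 v hv), fun v hv => ?_⟩
    rw [mul_inv_rev]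
    exact hb.2 _ (ha.2 v hv)
  | inv a _ ha =>
    refine ⟨ha.2, fun v hv => ?_⟩
    rw [inv_inv]
    exact ha.1 v hv

theorem HF_fix {g : VV B ≃ₗ[ℝ] VV B} (hg : g ∈ HF M F) (v : VV B) (hv : ∀ s ∈ F, Ph M s v = 0) :
    g v = v := by
  induction hg using Subgroup.closure_induction with
  | mem x hx =>
    obtain ⟨s, hs, rfl⟩ := hx
    exact sg_fix (hv s hs)
  | one => rfl
  | mul a b _ _ ha hb =>
    show a (b v) = v
    rw [hb, ha]
  | inv a _ ha =>
    have : a⁻¹ (a v) = v := by
      show (a⁻¹ * a) v = v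
      rw [inv_mul_cancel]
      rfl
    rwa [ha] at this

/-- the restriction to the lattice -/
noncomputable def rst : HF M F →* Module.End ℚ (LL M F) where
  toFun g :=
    { toFun := fun v => ⟨g.1 v.1, (HF_LL M F g.2).1 _ v.2⟩
      map_add' := fun v w => Subtype.ext (map_add g.1 v.1 w.1)
      map_smul' := fun c v => Subtype.ext (map_rat_smul g.1 c v.1) }
  map_one' := rfl
  map_mul' _ _ := rfl

theorem rst_inj (g : HF M F) (hg : rst M F g = 1) : g = 1 := by
  classical
  have hfv : ∀ s ∈ F, g.1 (fv s) = fv s := by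
    intro s hs
    have hm : fv s ∈ LL M F := by
      refine ⟨fun t ht => ⟨rfl, ?_⟩, fun t => ⟨zero_mem _, ?_⟩⟩
      · show (Finsupp.single s (1 : ℝ)) t = 0
        rw [Finsupp.single_apply, if_neg (fun h : s = t => ht (h ▸ hs))]
      · show (Finsupp.single s (1 : ℝ)) t ∈ _
        rw [Finsupp.single_apply]
        split_ifs
        · exact one_mem _
        · exact zero_mem _
    exact congrArg Subtype.val (LinearMap.congr_fun hg ⟨fv s, hm⟩)
  apply Subtype.ext
  apply LinearEquiv.ext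
  intro v
  show g.1 v = v
  obtain ⟨w, hw⟩ : ∃ w, w = ∑ s ∈ F, Ph M s v • fv s := ⟨_, rfl⟩
  have h1 : g.1 w = w := by
    rw [hw, map_sum]
    refine Finset.sum_congr rfl fun s hs => ?_
    rw [map_smul, hfv s hs]
  have h2 : ∀ s ∈ F, Ph M s (v - w) = 0 := by
    intro s hs
    rw [map_sub, hw, map_sum, Finset.sum_eq_single s]
    · rw [map_smul, Ph_fv, if_pos rfl, smul_eq_mul, mul_one, sub_self]
    · intro t _ hts
      rw [map_smul, Ph_fv, if_neg hts, smul_zero]
    · intro h
      exact absurd hs h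
  have h3 := HF_fix M F g.2 (v - w) h2
  have h4 : v = (v - w) + w := by rw [sub_add_cancel]
  rw [h4, map_add, h3, h1]

end fin

theorem C_HF {C : ∀ (G : Type) [Group G], Prop} (hC : ClosedE C)
    (hL : ∀ m : ℕ, C (Matrix.GeneralLinearGroup (Fin m) ℚ)) (M : CoxeterMatrix B) (F : Finset B) :
    C (HF M F) := by
  have := LL_fin M F
  refine of_injective' hC (rst M F).toHomUnits ?_ (C_end hC hL (LL M F))
  intro g hg
  exact rst_inj M F g (congrArg Units.val hg)

theorem C_range {C : ∀ (G : Type) [Group G], Prop} (hC : ClosedE C)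
    (hL : ∀ m : ℕ, C (Matrix.GeneralLinearGroup (Fin m) ℚ)) (M : CoxeterMatrix B) :
    C (rho M).range := by
  classical
  refine Pool.Agent.Y430.SS.of_directed hC.base _ (Finset B)
    (fun i j => ⟨i ∪ j, Finset.subset_union_left, Finset.subset_union_right⟩)
    (fun F => (HF M F).subgroupOf (rho M).range) ?_ ?_ ?_
  · intro F F' h x hx
    exact Subgroup.closure_mono (Set.image_mono (by exact_mod_cast h)) hx
  · rintro ⟨_, g, rfl⟩
    have : ∃ F : Finset B, rho M g ∈ HF M F := by
      refine ind (p := fun g => ∃ F : Finset B, rho M g ∈ HF M F) ?_ ?_ ?_ ?_ g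
      · exact ⟨∅, by rw [map_one]; exact one_mem _⟩
      · intro s
        refine ⟨{s}, Subgroup.subset_closure ⟨s, by simp, (rho_gn M s).symm⟩⟩
      · rintro a b ⟨F, hF⟩ ⟨F', hF'⟩
        refine ⟨F ∪ F', ?_⟩
        rw [map_mul]
        refine mul_mem (Subgroup.closure_mono (Set.image_mono ?_) hF)
          (Subgroup.closure_mono (Set.image_mono ?_) hF')
        · exact_mod_cast Finset.subset_union_left
        · exact_mod_cast Finset.subset_union_right
      · rintro a ⟨F, hF⟩
        refine ⟨F, ?_⟩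
        rw [map_inv]
        exact inv_mem hF
    obtain ⟨F, hF⟩ := this
    exact ⟨F, hF⟩
  · intro F
    refine of_injective' hC (((rho M).range.subtype.comp
      ((HF M F).subgroupOf (rho M).range).subtype).codRestrict (HF M F) ?_) ?_ (C_HF hC hL M F)
    · intro x
      exact x.2
    · intro x hx
      have h1 := congrArg Subtype.val hx
      exact Subtype.ext (Subtype.ext h1)

end Pool.Agent.U166.AR
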