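import Pool.Agent.U166.AR.Rep

/-!
# The representation is faithful on Artin groups with small components
-/

set_option autoImplicit false

namespace Pool.Agent.U166.AR

variable {B D : Type}

/-- every generator has at most one generator with which it does not commute -/
def Thin (N : CoxeterMatrix D) : Prop :=
  ∀ s t u, t ≠ s → u ≠ s → N s t ≠ 2 → N s u ≠ 2 → t = u

theorem comm_closure {G : Type} [Group G] {X Y : Set G} (h : ∀ x ∈ X, ∀ y ∈ Y, x * y = y * x) :
    ∀ a ∈ Subgroup.closure X, ∀ b ∈ Subgroup.closure Y, a * b = b * a := by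
  have h1 : ∀ x ∈ X, ∀ b ∈ Subgroup.closure Y, x * b = b * x := by
    intro x hx b hb
    induction hb using Subgroup.closure_induction with
    | mem y hy => exact h x hx y hy
    | one => rw [one_mul, mul_one]
    | mul a b _ _ ha hb => rw [← mul_assoc, ha, mul_assoc, hb, ← mul_assoc]
    | inv a _ ha => exact (Commute.inv_right (show Commute x a from ha)).eq
  intro a ha b hb
  induction ha using Subgroup.closure_induction with
  | mem x hx => exact h1 x hx b hb
  | one => rw [one_mul, mul_one]
  | mul a a' _ _ ha ha' => rw [mul_assoc, ha', ← mul_assoc, ha, mul_assoc]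
  | inv a _ ha => exact (Commute.inv_left (show Commute a b from ha)).eq

theorem split_closure {G : Type} [Group G] {X Y : Set G} (h : ∀ x ∈ X, ∀ y ∈ Y, x * y = y * x)
    {g : G} (hg : g ∈ Subgroup.closure (X ∪ Y)) :
    ∃ a ∈ Subgroup.closure X, ∃ b ∈ Subgroup.closure Y, g = a * b := by
  have hc := comm_closure h
  induction hg using Subgroup.closure_induction with
  | mem x hx =>
    rcases hx with hx | hx
    · exact ⟨x, Subgroup.subset_closure hx, 1, one_mem _, (mul_one x).symm⟩
    · exact ⟨1, one_mem _, x, Subgroup.subset_closure hx, (one_mul x).symm⟩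
  | one => exact ⟨1, one_mem _, 1, one_mem _, (one_mul 1).symm⟩
  | mul g g' _ _ h1 h2 =>
    obtain ⟨a, ha, b, hb, rfl⟩ := h1
    obtain ⟨a', ha', b', hb', rfl⟩ := h2
    refine ⟨a * a', mul_mem ha ha', b * b', mul_mem hb hb', ?_⟩
    rw [mul_assoc, ← mul_assoc b, ← hc a' ha' b hb, mul_assoc, mul_assoc]
  | inv g _ h1 =>
    obtain ⟨a, ha, b, hb, rfl⟩ := h1
    refine ⟨a⁻¹, inv_mem ha, b⁻¹, inv_mem hb, ?_⟩
    rw [mul_inv_rev, hc _ (inv_mem ha) _ (inv_mem hb)]

section emb

variable {N : CoxeterMatrix D} {M : CoxeterMatrix B} {φ : D → B}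

theorem gn_comm (N : CoxeterMatrix D) {s t : D} (h : N s t = 2) :
    gn N s * gn N t = gn N t * gn N s := by
  have := gn_rel N s t
  rw [h, alt_two, alt_two, alt_zero, alt_zero, mul_one, mul_one] at this
  exact this

theorem sg_far (hφ : Function.Injective φ) (h : ∀ s t, N s t = M (φ s) (φ t)) {s u : D}
    (hne : u ≠ s) (h2 : N u s = 2) : sg M (φ u) (ev (φ s)) = ev (φ s) := by
  apply sg_fix
  rw [Ph_ev, co_two M (fun h' => hne (hφ h')) (by rw [← h, h2])]

theorem far (hφ : Function.Injective φ) (h : ∀ s t, N s t = M (φ s) (φ t)) {Y : Set D} {s : D}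
    (hY : ∀ u ∈ Y, u ≠ s ∧ N u s = 2) {b : Artin N} (hb : b ∈ Subgroup.closure (gn N '' Y)) :
    rho M (mp φ h b) (ev (φ s)) = ev (φ s) := by
  induction hb using Subgroup.closure_induction with
  | mem x hx =>
    obtain ⟨u, hu, rfl⟩ := hx
    rw [mp_gn, rho_gn]
    exact sg_far hφ h (hY u hu).1 (hY u hu).2
  | one =>
    rw [map_one, map_one]
    rfl
  | mul a b _ _ ha hb =>
    rw [map_mul, map_mul]
    show rho M (mp φ h a) (rho M (mp φ h b) (ev (φ s))) = _
    rw [hb, ha]
  | inv a _ ha =>
    rw [map_inv, map_inv]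
    have : (rho M (mp φ h a))⁻¹ (rho M (mp φ h a) (ev (φ s))) = ev (φ s) := by
      show ((rho M (mp φ h a))⁻¹ * rho M (mp φ h a)) (ev (φ s)) = ev (φ s)
      rw [inv_mul_cancel]
      rfl
    rwa [ha] at this

/-- splitting off a component -/
theorem split (hφ : Function.Injective φ) (h : ∀ s t, N s t = M (φ s) (φ t)) {X Y : Set D}
    (hXY : ∀ x ∈ X, ∀ y ∈ Y, x ≠ y ∧ N x y = 2) {g : Artin N}
    (hg : g ∈ Subgroup.closure (gn N '' (X ∪ Y)))
    (hf : ∀ s ∈ X ∪ Y, rho M (mp φ h g) (ev (φ s)) = ev (φ s)) :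
    ∃ a ∈ Subgroup.closure (gn N '' X), ∃ b ∈ Subgroup.closure (gn N '' Y), g = a * b ∧
      (∀ s ∈ X, rho M (mp φ h a) (ev (φ s)) = ev (φ s)) ∧
      ∀ s ∈ Y, rho M (mp φ h b) (ev (φ s)) = ev (φ s) := by
  have hc : ∀ x ∈ gn N '' X, ∀ y ∈ gn N '' Y, x * y = y * x := by
    rintro _ ⟨x, hx, rfl⟩ _ ⟨y, hy, rfl⟩
    exact gn_comm N (hXY x hx y hy).2
  rw [Set.image_union] at hg
  obtain ⟨a, ha, b, hb, rfl⟩ := split_closure hc hg
  refine ⟨a, ha, b, hb, rfl, fun s hs => ?_, fun s hs => ?_⟩
  · have h1 := hf s (Or.inl hs)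
    rw [map_mul, map_mul] at h1
    have h2 : rho M (mp φ h a) (rho M (mp φ h b) (ev (φ s))) = ev (φ s) := h1
    rwa [far hφ h (fun u hu => ⟨(hXY s hs u hu).1.symm, (N.symmetric u s).trans (hXY s hs u hu).2⟩) hb]
      at h2
  · have h1 := hf s (Or.inr hs)
    rw [comm_closure hc a ha b hb, map_mul, map_mul] at h1
    have h2 : rho M (mp φ h b) (rho M (mp φ h a) (ev (φ s))) = ev (φ s) := h1
    rwa [far hφ h (fun u hu => hXY u hu s hs) ha] at h2

/-- one generator -/
theorem single_case (h : ∀ s t, N s t = M (φ s) (φ t)) {s : D} {a : Artin N}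
    (ha : a ∈ Subgroup.closure (gn N '' {s})) (hf : rho M (mp φ h a) (ev (φ s)) = ev (φ s)) :
    a = 1 := by
  rw [Set.image_singleton, ← Subgroup.zpowers_eq_closure] at ha
  obtain ⟨k, rfl⟩ := ha
  have h1 : ∀ k : ℤ, ((sg M (φ s)) ^ k) (ev (φ s)) = ((2 : ℝ) ^ k) • ev (φ s) := by
    intro k
    induction k with
    | zero =>
      rw [zpow_zero, zpow_zero, one_smul]
      rfl
    | succ k ih =>
      rw [zpow_add_one]
      show ((sg M (φ s)) ^ (k : ℤ)) (sg M (φ s) (ev (φ s))) = _
      rw [sg_apply, Ph_ev, co_self, one_smul, map_add, ih, zpow_add_one₀ two_ne_zero]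
      module
    | pred k ih =>
      rw [zpow_sub_one]
      show ((sg M (φ s)) ^ (-(k : ℤ))) ((sg M (φ s))⁻¹ (ev (φ s))) = _
      have : (sg M (φ s))⁻¹ (ev (φ s)) = ((2 : ℝ)⁻¹) • ev (φ s) := by
        rw [sg_inv_apply, Ph_ev, co_self]
        module
      rw [this, map_smul, ih, smul_smul, zpow_sub_one₀ two_ne_zero, mul_comm]
  have h2 : rho M (mp φ h (gn N s ^ k)) (ev (φ s)) = ev (φ s) := hf
  rw [map_zpow, map_zpow, mp_gn, rho_gn, h1] at h2
  have h3 : ((2 : ℝ) ^ k) = 1 := by
    have h4 := congrArg (fun v : VV B => v.1 (φ s)) h2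
    have h5 : (2 : ℝ) ^ k * (Finsupp.single (φ s) (1 : ℝ)) (φ s) = (Finsupp.single (φ s) (1 : ℝ)) (φ s) := h4
    rwa [Finsupp.single_eq_same, mul_one] at h5
  have h6 : k = 0 := by
    by_contra h12
    have := (zpow_right_injective₀ (show (0:ℝ) < 2 by norm_num) (by norm_num)).ne h12
    apply this
    show (2 : ℝ) ^ k = 2 ^ (0 : ℤ)
    rw [h3, zpow_zero]
  show gn N s ^ k = 1
  rw [h6, zpow_zero]

open Classical in
/-- the representation of a component -/
noncomputable def rc (s t : D) (l : ℝ) (x : D) : P2 := if x = s then sA l else if x = t then tA l else 1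

theorem rc_rel (hN : Thin N) {s t : D} (hne : t ≠ s) (h2 : N s t ≠ 2) (x y : D) :
    alt (N x y) (rc s t (lam (N s t)) x) (rc s t (lam (N s t)) y) =
      alt (N x y) (rc s t (lam (N s t)) y) (rc s t (lam (N s t)) x) := by
  classical
  have h1 : N s t ≠ 1 := N.off_diagonal s t hne.symm
  have e1 : rc s t (lam (N s t)) s = sA (lam (N s t)) := if_pos rfl
  have e2 : rc s t (lam (N s t)) t = tA (lam (N s t)) := by rw [rc, if_neg hne, if_pos rfl]
  have e3 : ∀ x, x ≠ s → x ≠ t → rc s t (lam (N s t)) x = 1 := by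
    intro x h3 h4
    rw [rc, if_neg h3, if_neg h4]
  have hs : ∀ y, y ≠ s → y ≠ t → N s y = 2 := by
    intro y h3 h4
    by_contra h5
    exact h4 (hN s y t h3 hne h5 h2)
  have ht : ∀ y, y ≠ s → y ≠ t → N t y = 2 := by
    intro y h3 h4
    by_contra h5
    exact h3 (hN t y s h4 hne.symm h5 (by rwa [N.symmetric]))
  have h22 : ∀ a : P2, alt 2 a 1 = alt 2 1 a := by
    intro a
    rw [alt_two, alt_two, mul_one, one_mul, alt_zero, alt_zero]
  by_cases hx : x = s
  · subst hx
    by_cases hy : y = x
    · rw [hy]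
    · by_cases hy' : y = t
      · subst hy'
        rw [e1, e2]
        exact rel2 h1
      · rw [hs y hy hy', e3 y hy hy']
        exact h22 _
  · by_cases hx' : x = t
    · subst hx'
      by_cases hy : y = s
      · subst hy
        rw [e1, e2, N.symmetric]
        exact (rel2 h1).symm
      · by_cases hy' : y = x
        · rw [hy']
        · rw [ht y hy hy', e3 y hy hy']
          exact h22 _
    · rw [e3 x hx hx']
      by_cases hy : y = s
      · subst hy
        rw [N.symmetric, hs x hx hx']
        exact (h22 _).symm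
      · by_cases hy' : y = t
        · subst hy'
          rw [N.symmetric, ht x hx hx']
          exact (h22 _).symm
        · rw [e3 y hy hy']

/-- two generators -/
theorem pair_case (hN : Thin N) (h : ∀ s t, N s t = M (φ s) (φ t)) {s t : D}
    (hst : WellOrderingRel (φ s) (φ t)) (h2 : N s t ≠ 2) {a : Artin N}
    (ha : a ∈ Subgroup.closure (gn N '' {s, t})) (hs : rho M (mp φ h a) (ev (φ s)) = ev (φ s))
    (ht : rho M (mp φ h a) (ev (φ t)) = ev (φ t)) : a = 1 := by
  classical
  have hne : t ≠ s := by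
    rintro rfl
    exact irrefl_of WellOrderingRel _ hst
  have hne' : φ s ≠ φ t := by
    intro h'
    rw [h'] at hst
    exact irrefl_of WellOrderingRel _ hst
  have h1 : N s t ≠ 1 := N.off_diagonal s t hne.symm
  set R : Artin N →* P2 := lft N (rc s t (lam (N s t))) (rc_rel hN hne h2) with hR
  have e1 : R (gn N s) = sA (lam (N s t)) := by
    rw [hR, lft_gn]
    exact if_pos rfl
  have e2 : R (gn N t) = tA (lam (N s t)) := by
    rw [hR, lft_gn, rc, if_neg hne, if_pos rfl]
  have key : ∀ a ∈ Subgroup.closure (gn N '' {s, t}), ∀ w : ℝ × ℝ,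
      rho M (mp φ h a) (jj (φ s) (φ t) w) = jj (φ s) (φ t) (R a w) := by
    intro a ha
    induction ha using Subgroup.closure_induction with
    | mem x hx =>
      intro w
      obtain ⟨y, hy, rfl⟩ := hx
      rcases hy with rfl | hy
      · rw [mp_gn, rho_gn, e1]
        have := sg_jj (M := M) hst (u := 0) (map_zero _) w
        rw [zero_add, zero_add, ← h] at this
        exact this
      · rw [Set.mem_singleton_iff] at hy
        subst hy
        rw [mp_gn, rho_gn, e2]
        have := sg_jj' (M := M) hst (u := 0) (map_zero _) w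
        rw [zero_add, zero_add, ← h] at this
        exact this
    | one =>
      intro w
      rw [map_one, map_one, map_one]
      rfl
    | mul a b _ _ ha hb =>
      intro w
      rw [map_mul, map_mul, map_mul]
      show rho M (mp φ h a) (rho M (mp φ h b) (jj (φ s) (φ t) w)) = jj (φ s) (φ t) (R a (R b w))
      rw [hb, ha]
    | inv a _ ha =>
      intro w
      rw [map_inv, map_inv, map_inv]
      have h3 := ha ((R a)⁻¹ w)
      have h4 : R a ((R a)⁻¹ w) = w := by
        show (R a * (R a)⁻¹) w = w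
        rw [mul_inv_cancel]
        rfl
      rw [h4] at h3
      rw [← h3]
      show ((rho M (mp φ h a))⁻¹ * rho M (mp φ h a)) _ = _
      rw [inv_mul_cancel]
      rfl
  have hj : Function.Injective (jj (φ s) (φ t)) := by
    intro w w' hw
    have c1 := congrArg (fun v : VV B => v.1 (φ s)) hw
    have c2 := congrArg (fun v : VV B => v.1 (φ t)) hw
    have f1 : ∀ w : ℝ × ℝ, (jj (φ s) (φ t) w).1 (φ s) = w.1 := by
      intro w
      show w.1 * (Finsupp.single (φ s) (1 : ℝ)) (φ s) + w.2 * (Finsupp.single (φ t) (1 : ℝ)) (φ s) = w.1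
      rw [Finsupp.single_eq_same, Finsupp.single_apply, if_neg hne'.symm]
      ring
    have f2 : ∀ w : ℝ × ℝ, (jj (φ s) (φ t) w).1 (φ t) = w.2 := by
      intro w
      show w.1 * (Finsupp.single (φ s) (1 : ℝ)) (φ t) + w.2 * (Finsupp.single (φ t) (1 : ℝ)) (φ t) = w.2
      rw [Finsupp.single_eq_same, Finsupp.single_apply, if_neg hne']
      ring
    have c1' : (jj (φ s) (φ t) w).1 (φ s) = (jj (φ s) (φ t) w').1 (φ s) := c1
    have c2' : (jj (φ s) (φ t) w).1 (φ t) = (jj (φ s) (φ t) w').1 (φ t) := c2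
    rw [f1, f1] at c1'
    rw [f2, f2] at c2'
    exact Prod.ext c1' c2'
  have hRa : R a = 1 := by
    apply LinearEquiv.ext
    intro w
    apply hj
    rw [← key a ha w]
    show _ = jj (φ s) (φ t) w
    rw [jj, map_add, map_smul, map_smul, hs, ht]
  let H := Subgroup.closure (gn N '' {s, t})
  have hsH : gn N s ∈ H := Subgroup.subset_closure ⟨s, by simp, rfl⟩
  have htH : gn N t ∈ H := Subgroup.subset_closure ⟨t, by simp, rfl⟩
  have hgen : Subgroup.closure ({⟨gn N s, hsH⟩, ⟨gn N t, htH⟩} : Set H) = ⊤ := by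
    have h3 := Subgroup.closure_closure_coe_preimage (k := gn N '' {s, t})
    rw [← h3]
    congr 1
    ext ⟨x, hx⟩
    simp only [Set.mem_insert_iff, Set.mem_singleton_iff, Set.mem_preimage, Set.mem_image,
      Subtype.mk.injEq]
    constructor
    · rintro (rfl | rfl)
      · exact ⟨s, Or.inl rfl, rfl⟩
      · exact ⟨t, Or.inr rfl, rfl⟩
    · rintro ⟨y, rfl | rfl, rfl⟩
      · exact Or.inl rfl
      · exact Or.inr rfl
  have hm : N s t = 0 ∨ 3 ≤ N s t := by omega
  have hfin := dihedral (R.comp H.subtype) (⟨gn N s, hsH⟩ : H) (⟨gn N t, htH⟩ : H) (N s t) hm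
    (by
      apply H.subtype_injective
      rw [map_alt, map_alt]
      exact gn_rel N s t) hgen e1 e2 ⟨a, ha⟩ hRa
  exact congrArg Subtype.val hfin

/-- the induction -/
theorem thin_aux (hN : Thin N) (hφ : Function.Injective φ) (h : ∀ s t, N s t = M (φ s) (φ t)) :
    ∀ (n : ℕ) (F : Finset D), F.card = n → (∀ s ∈ F, ∀ t, t ≠ s → N s t ≠ 2 → t ∈ F) →
      ∀ g ∈ Subgroup.closure (gn N '' F), (∀ s ∈ F, rho M (mp φ h g) (ev (φ s)) = ev (φ s)) →
      g = 1 := by
  classical
  intro n
  induction n using Nat.strong_induction_on with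
  | _ n ih =>
    intro F hF hcl g hg hf
    rcases F.eq_empty_or_nonempty with rfl | ⟨s, hs⟩
    · rw [Finset.coe_empty, Set.image_empty, Subgroup.closure_empty, Subgroup.mem_bot] at hg
      exact hg
    by_cases hp : ∃ t, t ≠ s ∧ N s t ≠ 2
    · obtain ⟨t, hts, h2⟩ := hp
      have ht : t ∈ F := hcl s hs t hts h2
      have h2' : N t s ≠ 2 := by rwa [N.symmetric]
      obtain ⟨F', hF'⟩ : ∃ F' : Finset D, F' = (F.erase s).erase t := ⟨_, rfl⟩
      have hmem : ∀ u, u ∈ F' ↔ u ≠ t ∧ u ≠ s ∧ u ∈ F := by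
        intro u
        rw [hF', Finset.mem_erase, Finset.mem_erase]
      have hun : (F : Set D) = {s, t} ∪ (F' : Set D) := by
        ext u
        rw [Set.mem_union, Finset.mem_coe, Finset.mem_coe, hmem]
        simp only [Set.mem_insert_iff, Set.mem_singleton_iff]
        constructor
        · intro hu
          by_cases h3 : u = s
          · exact Or.inl (Or.inl h3)
          · by_cases h4 : u = t
            · exact Or.inl (Or.inr h4)
            · exact Or.inr ⟨h4, h3, hu⟩
        · rintro ((rfl | rfl) | ⟨-, -, hu⟩)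
          · exact hs
          · exact ht
          · exact hu
      have hXY : ∀ x ∈ ({s, t} : Set D), ∀ y ∈ (F' : Set D), x ≠ y ∧ N x y = 2 := by
        intro x hx y hy
        rw [Finset.mem_coe, hmem] at hy
        rcases hx with rfl | hx
        · refine ⟨hy.2.1.symm, ?_⟩
          by_contra h5
          exact hy.1 (hN x y t hy.2.1 hts h5 h2)
        · rw [Set.mem_singleton_iff] at hx
          subst hx
          refine ⟨hy.1.symm, ?_⟩
          by_contra h5
          exact hy.2.1 (hN x y s hy.1 hts.symm h5 h2')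
      rw [hun] at hg
      obtain ⟨a, ha, b, hb, rfl, hfa, hfb⟩ := split hφ h hXY hg (fun u hu => hf u (by
        have : u ∈ (F : Set D) := by rw [hun]; exact hu
        exact this))
      have ha1 : a = 1 := by
        have f1 := hfa s (by simp)
        have f2 := hfa t (by simp)
        rcases trichotomous_of WellOrderingRel (φ s) (φ t) with h3 | h3 | h3
        · exact pair_case hN h h3 h2 ha f1 f2
        · exact absurd (hφ h3).symm hts
        · rw [Set.pair_comm] at ha
          exact pair_case hN h h3 h2' ha f2 f1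
      have hcard : F'.card < n := by
        rw [← hF]
        refine Finset.card_lt_card (Finset.ssubset_iff_subset_ne.2 ⟨fun u hu => ((hmem u).1 hu).2.2, ?_⟩)
        intro h3
        rw [← h3] at hs
        exact ((hmem s).1 hs).2.1 rfl
      have hb1 : b = 1 := by
        refine ih F'.card hcard F' rfl ?_ b hb hfb
        intro u hu v hvu hv
        rw [hmem] at hu ⊢
        refine ⟨?_, ?_, hcl u hu.2.2 v hvu hv⟩
        · rintro rfl
          apply hv
          rw [N.symmetric]
          exact (hXY v (by simp) u (by rw [Finset.mem_coe, hmem]; exact hu)).2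
        · rintro rfl
          apply hv
          rw [N.symmetric]
          exact (hXY v (by simp) u (by rw [Finset.mem_coe, hmem]; exact hu)).2
      rw [ha1, hb1, one_mul]
    · push Not at hp
      obtain ⟨F', hF'⟩ : ∃ F' : Finset D, F' = F.erase s := ⟨_, rfl⟩
      have hmem : ∀ u, u ∈ F' ↔ u ≠ s ∧ u ∈ F := by
        intro u
        rw [hF', Finset.mem_erase]
      have hun : (F : Set D) = {s} ∪ (F' : Set D) := by
        ext u
        rw [Set.mem_union, Finset.mem_coe, Finset.mem_coe, hmem, Set.mem_singleton_iff]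
        constructor
        · intro hu
          by_cases h3 : u = s
          · exact Or.inl h3
          · exact Or.inr ⟨h3, hu⟩
        · rintro (rfl | ⟨-, hu⟩)
          · exact hs
          · exact hu
      have hXY : ∀ x ∈ ({s} : Set D), ∀ y ∈ (F' : Set D), x ≠ y ∧ N x y = 2 := by
        intro x hx y hy
        rw [Finset.mem_coe, hmem] at hy
        rw [Set.mem_singleton_iff] at hx
        subst hx
        exact ⟨hy.1.symm, hp y hy.1⟩
      rw [hun] at hg
      obtain ⟨a, ha, b, hb, rfl, hfa, hfb⟩ := split hφ h hXY hg (fun u hu => hf u (by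
        have : u ∈ (F : Set D) := by rw [hun]; exact hu
        exact this))
      have ha1 : a = 1 := single_case h ha (hfa s rfl)
      have hcard : F'.card < n := by
        rw [← hF]
        refine Finset.card_lt_card (Finset.ssubset_iff_subset_ne.2 ⟨fun u hu => ((hmem u).1 hu).2, ?_⟩)
        intro h3
        rw [← h3] at hs
        exact ((hmem s).1 hs).1 rfl
      have hb1 : b = 1 := by
        refine ih F'.card hcard F' rfl ?_ b hb hfb
        intro u hu v hvu hv
        rw [hmem] at hu ⊢
        refine ⟨?_, hcl u hu.2 v hvu hv⟩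
        rintro rfl
        apply hv
        rw [N.symmetric]
        exact (hXY v rfl u (by rw [Finset.mem_coe, hmem]; exact hu)).2
      rw [ha1, hb1, one_mul]

/-- **the representation is faithful on the image of an Artin group with small components** -/
theorem thin_inj (hN : Thin N) (hφ : Function.Injective φ) (h : ∀ s t, N s t = M (φ s) (φ t))
    (g : Artin N) (hg : rho M (mp φ h g) = 1) : g = 1 := by
  classical
  have h1 : ∃ F : Finset D, g ∈ Subgroup.closure (gn N '' F) := by
    refine ind (p := fun g => ∃ F : Finset D, g ∈ Subgroup.closure (gn N '' F)) ?_ ?_ ?_ ?_ g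
    · exact ⟨∅, one_mem _⟩
    · intro s
      exact ⟨{s}, Subgroup.subset_closure ⟨s, by simp, rfl⟩⟩
    · rintro a b ⟨F, hF⟩ ⟨F', hF'⟩
      refine ⟨F ∪ F', mul_mem (Subgroup.closure_mono (Set.image_mono ?_) hF)
        (Subgroup.closure_mono (Set.image_mono ?_) hF')⟩
      · exact_mod_cast Finset.subset_union_left
      · exact_mod_cast Finset.subset_union_right
    · rintro a ⟨F, hF⟩
      exact ⟨F, inv_mem hF⟩
  obtain ⟨F, hF⟩ := h1
  let p : D → D := fun s => if hs : ∃ t, t ≠ s ∧ N s t ≠ 2 then Classical.choose hs else s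
  have hp : ∀ s t, t ≠ s → N s t ≠ 2 → p s = t := by
    intro s t hts h2
    have hs : ∃ t, t ≠ s ∧ N s t ≠ 2 := ⟨t, hts, h2⟩
    have e : p s = Classical.choose hs := dif_pos hs
    have hc := Classical.choose_spec hs
    rw [e]
    exact hN s _ _ hc.1 hts hc.2 h2
  refine thin_aux hN hφ h _ (F ∪ F.image p) rfl ?_ g
    (Subgroup.closure_mono (Set.image_mono (by exact_mod_cast Finset.subset_union_left)) hF)
    (fun s _ => by rw [hg]; rfl)
  intro s hs t hts h2
  rw [Finset.mem_union, Finset.mem_image] at hs ⊢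
  rcases hs with hs | ⟨u, hu, hus⟩
  · exact Or.inr ⟨s, hs, hp s t hts h2⟩
  · by_cases hx : ∃ t, t ≠ u ∧ N u t ≠ 2
    · obtain ⟨t', ht', ht2⟩ := hx
      have h3 : s = t' := hus.symm.trans (hp u t' ht' ht2)
      subst h3
      left
      have : t = u := hN s t u hts ht'.symm h2 (by rwa [N.symmetric])
      rw [this]
      exact hu
    · have e : p u = u := dif_neg hx
      rw [e] at hus
      subst hus
      exact absurd ⟨t, hts, h2⟩ hx

end emb

end Pool.Agent.U166.AR
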